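import Pool.Agent.Helper78.Mpc.MParam
import Pool.Agent.Helper65.LinSpace.Main

/-!
# Massively parallel computation with few rounds is weaker than linear space
-/

namespace Pool.Agent.Helper78.Mpc

open Pool.Agent.Helper65.LinSpace Finset Filter Topology

/-! ### Asymptotics -/

theorem ev_ll_ge (K : ℕ) : ∀ᶠ n : ℕ in atTop, K ≤ ll n := by
  filter_upwards [eventually_ge_atTop (2 ^ K)] with n hn
  unfold ll
  have := Nat.log_mono_right (b := 2) hn
  rw [Nat.log_pow (by norm_num)] at this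
  omega

theorem ev_ll_cube (K : ℕ) : ∀ᶠ n : ℕ in atTop, K * (ll n * ll n * ll n) ≤ n := by
  filter_upwards [ev_ll_le (show (0 : ℝ) < 1 / 6 by norm_num),
    ev_le_rpow (2 * K) (show (0 : ℝ) < 1 / 2 by norm_num), eventually_ge_atTop 1] with n h1 h2 h3
  have hn0 : (0 : ℝ) < (n : ℝ) + 1 := by positivity
  have hn1 : (1 : ℝ) ≤ n := by exact_mod_cast h3
  have hl0 : (0 : ℝ) ≤ ll n := Nat.cast_nonneg _
  have hp : (0 : ℝ) ≤ ((n : ℝ) + 1) ^ ((1 : ℝ) / 6) := by positivity
  have h4 : (ll n : ℝ) * ll n * ll n ≤ ((n : ℝ) + 1) ^ ((1 : ℝ) / 2) := by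
    have e : ((n : ℝ) + 1) ^ ((1 : ℝ) / 2) = ((n : ℝ) + 1) ^ ((1 : ℝ) / 6) *
        ((n : ℝ) + 1) ^ ((1 : ℝ) / 6) * ((n : ℝ) + 1) ^ ((1 : ℝ) / 6) := by
      rw [← Real.rpow_add hn0, ← Real.rpow_add hn0]
      norm_num
    rw [e]
    exact mul_le_mul (mul_le_mul h1 h1 hl0 hp) h1 hl0 (by positivity)
  have h5 : ((n : ℝ) + 1) ^ ((1 : ℝ) / 2) * ((n : ℝ) + 1) ^ ((1 : ℝ) / 2) = (n : ℝ) + 1 := by
    rw [← Real.rpow_add hn0]
    norm_num
  have h6 : (0 : ℝ) ≤ ((n : ℝ) + 1) ^ ((1 : ℝ) / 2) := by positivity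
  have h7 : 2 * (K : ℝ) * (ll n * ll n * ll n) ≤ (n : ℝ) + 1 := by
    rw [← h5]
    have hK : (0 : ℝ) ≤ K := Nat.cast_nonneg _
    exact mul_le_mul h2 h4 (by positivity) h6
  have h8 : (K : ℝ) * (ll n * ll n * ll n) ≤ n := by linarith
  exact_mod_cast h8

theorem ev_cond (c k : ℕ) : ∀ᶠ n : ℕ in atTop, (n + 2) ^ k ≤ 2 ^ la n ∧
    c * (SS n + (SS n + 4 * la n + 2) + 2) ≤ LW n ∧
    c + LW n + SS n + (SS n + 4 * la n + 2) + 1 ≤ 2 ^ (2 * ll n) := by
  filter_upwards [ev_ll_ge (2 * k + 4 * c + 1), ev_ll_cube (16 * c), eventually_ge_atTop (c + 20)]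
    with n h1 h2 h3
  have hl := lt_two_pow_ll n
  have hS := SS_mul n
  have hSle : SS n ≤ n := Nat.div_le_self _ _
  have hWle : LW n ≤ n := Nat.div_le_self _ _
  have hsq := ll_sq_le n
  have hp := ll_pos n
  refine ⟨?_, ?_, ?_⟩
  · have h4 : n + 2 ≤ 2 ^ (2 * ll n) := by
      have e : 2 ^ (2 * ll n) = 2 ^ ll n * 2 ^ ll n := by rw [two_mul, pow_add]
      have h5 : 2 ≤ 2 ^ ll n := by
        calc 2 = 2 ^ 1 := rfl
          _ ≤ 2 ^ ll n := Nat.pow_le_pow_right (by norm_num) hp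
      rw [e]
      nlinarith
    calc (n + 2) ^ k ≤ (2 ^ (2 * ll n)) ^ k := Nat.pow_le_pow_left h4 k
      _ = 2 ^ (2 * k * ll n) := by
        rw [← pow_mul]
        congr 1
        ring
      _ ≤ 2 ^ la n := by
        refine Nat.pow_le_pow_right (by norm_num) ?_
        unfold la
        exact Nat.mul_le_mul_right _ (by omega)
  · unfold LW
    rw [Nat.le_div_iff_mul_le hp]
    have h5 : 4 * c ≤ ll n * ll n := by nlinarith
    have h6 : 4 * c * (SS n * ll n) ≤ n := by
      calc 4 * c * (SS n * ll n) ≤ (ll n * ll n) * (SS n * ll n) := Nat.mul_le_mul_right _ h5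
        _ = SS n * (ll n * ll n * ll n) := by ring
        _ ≤ n := hS
    have h7 : ll n ≤ ll n * ll n * ll n := by nlinarith [Nat.mul_le_mul hp hp]
    have h8 : c * ll n ≤ c * (ll n * ll n * ll n) := Nat.mul_le_mul_left _ h7
    have e : c * (SS n + (SS n + 4 * la n + 2) + 2) * ll n =
        2 * (c * (SS n * ll n)) + 4 * (c * (ll n * ll n * ll n)) + 4 * (c * ll n) := by
      unfold la
      ring
    have e2 : 4 * c * (SS n * ll n) = 4 * (c * (SS n * ll n)) := by ring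
    have e3 : 16 * c * (ll n * ll n * ll n) = 16 * (c * (ll n * ll n * ll n)) := by ring
    rw [e]
    rw [e2] at h6
    rw [e3] at h2
    omega
  · have e : 2 ^ (2 * ll n) = 2 ^ ll n * 2 ^ ll n := by rw [two_mul, pow_add]
    have h4 : (n + 1) * (n + 1) ≤ 2 ^ (2 * ll n) := by
      rw [e]
      exact Nat.mul_le_mul hl hl
    refine le_trans ?_ h4
    have h5 : la n ≤ 4 * (n + 1) := hsq
    nlinarith

theorem ev_RR {ε : ℝ} (hε : 0 < ε) (C : ℝ) : ∀ᶠ n : ℕ in atTop,
    C * ((n : ℝ) + 1) ^ (1 - ε) ≤ RR n := by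
  obtain ⟨δ, hδ, hδ1, hδ2⟩ : ∃ δ : ℝ, 0 < δ ∧ δ < 1 / 6 ∧ 6 * δ ≤ ε :=
    ⟨min (ε / 6) (1 / 7), by positivity, lt_of_le_of_lt (min_le_right _ _) (by norm_num), by
      have := min_le_left (ε / 6) (1 / 7)
      linarith⟩
  filter_upwards [ev_ll_le hδ, ev_le_rpow (2 * |C| + 2) hδ, eventually_ge_atTop 1] with n h1 h2 h3
  have hn0 : (0 : ℝ) < (n : ℝ) + 1 := by positivity
  have hn1 : (1 : ℝ) ≤ (n : ℝ) := by exact_mod_cast h3
  have hC : C ≤ |C| := le_abs_self C
  have hC0 := abs_nonneg C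
  have h4 : (n : ℝ) < (RR n + 1) * (ll n * ll n * ll n * ll n) := by
    have : n < (RR n + 1) * (ll n * ll n * ll n * ll n) := by
      unfold RR
      have hpos : 0 < ll n * ll n * ll n * ll n :=
        Nat.mul_pos (Nat.mul_pos (Nat.mul_pos (ll_pos n) (ll_pos n)) (ll_pos n)) (ll_pos n)
      have := Nat.lt_div_mul_add (a := n) hpos
      rw [add_mul, one_mul]
      exact this
    exact_mod_cast this
  have hl0 : (0 : ℝ) ≤ ll n := Nat.cast_nonneg _
  have hd0 : (0 : ℝ) ≤ ((n : ℝ) + 1) ^ δ := by positivity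
  have h5 : (ll n : ℝ) * ll n * ll n * ll n ≤ ((n : ℝ) + 1) ^ (4 * δ) := by
    have e : ((n : ℝ) + 1) ^ (4 * δ) = ((n : ℝ) + 1) ^ δ * ((n : ℝ) + 1) ^ δ *
        ((n : ℝ) + 1) ^ δ * ((n : ℝ) + 1) ^ δ := by
      rw [← Real.rpow_add hn0, ← Real.rpow_add hn0, ← Real.rpow_add hn0]
      congr 1
      ring
    rw [e]
    exact mul_le_mul (mul_le_mul (mul_le_mul h1 h1 hl0 hd0) h1 hl0 (by positivity)) h1 hl0
      (by positivity)
  have hr0 : (0 : ℝ) ≤ RR n := Nat.cast_nonneg _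
  have h6 : ((n : ℝ) + 1) / 2 ≤ (RR n + 1) * ((n : ℝ) + 1) ^ (4 * δ) := by
    have : ((RR n : ℝ) + 1) * (ll n * ll n * ll n * ll n) ≤
        (RR n + 1) * ((n : ℝ) + 1) ^ (4 * δ) := mul_le_mul_of_nonneg_left h5 (by positivity)
    linarith
  have h7 : ((n : ℝ) + 1) = ((n : ℝ) + 1) ^ (1 - 5 * δ) * ((n : ℝ) + 1) ^ δ *
      ((n : ℝ) + 1) ^ (4 * δ) := by
    rw [← Real.rpow_add hn0, ← Real.rpow_add hn0]
    conv_lhs => rw [← Real.rpow_one ((n : ℝ) + 1)]
    congr 1
    ring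
  have h8 : (0 : ℝ) < ((n : ℝ) + 1) ^ (4 * δ) := by positivity
  have h9 : ((n : ℝ) + 1) ^ (1 - 5 * δ) * ((n : ℝ) + 1) ^ δ / 2 ≤ RR n + 1 := by
    have : (((n : ℝ) + 1) ^ (1 - 5 * δ) * ((n : ℝ) + 1) ^ δ / 2) * ((n : ℝ) + 1) ^ (4 * δ) ≤
        (RR n + 1) * ((n : ℝ) + 1) ^ (4 * δ) := by
      refine le_trans (le_of_eq ?_) h6
      conv_rhs => rw [h7]
      ring
    exact le_of_mul_le_mul_right this h8
  have h10 : (1 : ℝ) ≤ ((n : ℝ) + 1) ^ (1 - 5 * δ) :=
    Real.one_le_rpow (by linarith) (by linarith)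
  have h11 : ((n : ℝ) + 1) ^ (1 - ε) ≤ ((n : ℝ) + 1) ^ (1 - 5 * δ) :=
    Real.rpow_le_rpow_of_exponent_le (by linarith) (by linarith)
  have h12 : (0 : ℝ) ≤ ((n : ℝ) + 1) ^ (1 - ε) := by positivity
  calc C * ((n : ℝ) + 1) ^ (1 - ε) ≤ |C| * ((n : ℝ) + 1) ^ (1 - ε) :=
        mul_le_mul_of_nonneg_right hC h12
    _ ≤ |C| * ((n : ℝ) + 1) ^ (1 - 5 * δ) := mul_le_mul_of_nonneg_left h11 hC0
    _ ≤ RR n := by nlinarith

theorem RR_le_SS (n : ℕ) : RR n ≤ SS n := by
  unfold RR SS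
  refine Nat.div_le_div_left ?_ ?_
  · exact Nat.le_mul_of_pos_right _ (ll_pos n)
  · exact Nat.mul_pos (Nat.mul_pos (ll_pos n) (ll_pos n)) (ll_pos n)

/-! ### Codes -/

theorem exists_ini (f : Option Bool → Option Bool → List Bool) :
    ∃ B0 ini : ℕ, ∀ a b, dig B0 ini (3 * codeO a + codeO b) = num (f a b) := by
  let g : ℕ → ℕ := fun i => num (f (optN (i / 3)) (optN (i % 3)))
  refine ⟨(∑ i ∈ range 9, g i) + 1, tab ((∑ i ∈ range 9, g i) + 1) 9 g, fun a b => ?_⟩
  have ha := codeO_lt a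
  have hb := codeO_lt b
  rw [dig_tab _ (by omega)]
  · show num (f (optN ((3 * codeO a + codeO b) / 3)) (optN ((3 * codeO a + codeO b) % 3))) = _
    have e1 : (3 * codeO a + codeO b) / 3 = codeO a := by omega
    have e2 : (3 * codeO a + codeO b) % 3 = codeO b := by omega
    rw [e1, e2, optN_codeO, optN_codeO]
  · intro i hi
    have := Finset.single_le_sum (f := g) (fun j _ => Nat.zero_le (g j)) (mem_range.2 hi)
    omega

theorem Fits_mono {A : MPC} {m : ℕ} {w y : List Bool} {r : ℕ} {s t : ℝ} (h : s ≤ t)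
    (hf : A.Fits m w y r s) : A.Fits m w y r t :=
  ⟨fun i hi j hj => (hf.1 i hi j hj).trans h, fun i hi j hj => (hf.2 i hi j hj).trans h⟩

/-- Every algorithm has a code. -/
theorem exists_UM (A : MPC) (k c : ℕ) : ∃ e n₀ : ℕ, ∀ w : List Bool, n₀ ≤ w.length →
    (UM c e (num w) ≠ 0 → ∃ y r, A.AcceptsAt ((w.length + 2) ^ k) w y r) ∧
    ∀ y r, y.length ≤ c * w.length → r ≤ RR w.length →
      A.Fits ((w.length + 2) ^ k) w y r (SS w.length) →
      A.AcceptsAt ((w.length + 2) ^ k) w y r → UM c e (num w) ≠ 0 := by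
  obtain ⟨eM, cM, hM⟩ := fnN_spec A.msg_lin
  obtain ⟨eU, cU, hU⟩ := fnN_spec A.upd_lin
  obtain ⟨B0, ini, hini⟩ := exists_ini A.init
  obtain ⟨n₀, hn₀⟩ := eventually_atTop.1 (ev_cond (cM + cU) k)
  refine ⟨Nat.pair eM (Nat.pair eU (Nat.pair k (Nat.pair ini B0))), n₀, fun w hw => ?_⟩
  obtain ⟨h1, h2, h3⟩ := hn₀ w.length hw
  have hlog := log_num w
  set n := w.length with hn
  have hB : 2 ^ (SS n + 1) ≤ CM (num w) := by
    refine two_pow_le_CM ?_
    rw [hlog]
    have : SS n ≤ n := Nat.div_le_self _ _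
    omega
  have hgood : ∀ (f : List Bool → List Bool) (e c' : ℕ), c' ≤ cM + cU →
      (∀ (w : List Bool) (S Λ β B : ℕ), c' * (S + w.length + 2) ≤ Λ →
        c' + Λ + S + w.length + 1 ≤ β → 2 ^ (S + 1) ≤ B →
        fnN e S Λ β B (num w) = if (f w).length ≤ S then num (f w) else 0) →
      Good f e (SS n) (LW n) (2 ^ (2 * ll n)) (CM (num w)) (SS n + 4 * la n + 2) := by
    intro f e c' hc' hf u hu
    refine hf u _ _ _ _ ?_ ?_ hB
    · refine le_trans ?_ h2
      exact Nat.mul_le_mul hc' (by omega)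
    · omega
  have hmsg := hgood A.msg eM cM (by omega) hM
  have hupd := hgood A.upd eU cU (by omega) hU
  have hcap : capPow (n + 2) k (CM (num w)) = (n + 2) ^ k := by
    have := two_pow_la_le (num w)
    rw [hlog] at this
    rw [capPow, min_eq_left (by omega)]
  have hroot : packL (2 ^ la n) 0 0 0 = 0 := by simp [packL]
  have key : ∀ (y : List Bool) (r : ℕ), r ≤ RR n →
      (simM eM eU k ini B0 (num w) (num y) r ≠ 0 →
        simM eM eU k ini B0 (num w) (num y) r = num (A.mem ((n + 2) ^ k) w y r 0)) ∧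
      (A.Fits ((n + 2) ^ k) w y r (SS n) →
        simM eM eU k ini B0 (num w) (num y) r = num (A.mem ((n + 2) ^ k) w y r 0)) := by
    intro y r hr
    have h := VV_mem (A := A) (w := w) (y := y) (m := (n + 2) ^ k) hmsg hupd le_rfl h1 hini r 0
      (by positivity)
    rw [hroot] at h
    have hm0 : 0 < (n + 2) ^ k := Nat.pow_pos (by omega)
    have e : simM eM eU k ini B0 (num w) (num y) r = VV eM eU (SS n) (LW n) (2 ^ (2 * ll n))
        (CM (num w)) ((n + 2) ^ k) (la n) ini B0 (num w) (num y) (r * (la n + 2)) 0 := by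
      unfold simM
      rw [hlog, min_eq_left hr, hcap]
    rw [e]
    generalize VV eM eU (SS n) (LW n) (2 ^ (2 * ll n))
        (CM (num w)) ((n + 2) ^ k) (la n) ini B0 (num w) (num y) (r * (la n + 2)) 0 = X at h ⊢
    exact ⟨h.1, fun hf => h.2 hf hm0⟩
  unfold UM
  simp only [Nat.unpair_pair]
  rw [hlog]
  constructor
  · intro hne
    rw [Ne, sum_eq_zero_iff] at hne
    push Not at hne
    obtain ⟨y, _, hne⟩ := hne
    rw [Ne, sum_eq_zero_iff] at hne
    push Not at hne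
    obtain ⟨r, hr, hne⟩ := hne
    rw [mem_range] at hr
    have hy0 : 0 < y := by
      by_contra h
      apply hne
      rw [lt01, if_neg h, zero_mul]
    obtain ⟨v, rfl⟩ := exists_num hy0
    have hacc : accN (simM eM eU k ini B0 (num w) (num v) r) ≠ 0 := by
      intro h
      apply hne
      rw [h, mul_zero]
    have hs0 : simM eM eU k ini B0 (num w) (num v) r ≠ 0 := by
      intro h
      apply hacc
      rw [h]
      rfl
    rw [(key v r (by omega)).1 hs0] at hacc
    refine ⟨v, r, (accN_num _).1 ?_⟩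
    have := accN_le (num (A.mem ((n + 2) ^ k) w v r 0))
    omega
  · intro y r hy hr hfit hacc
    have hval := (key y r hr).2 hfit
    have hacc1 : accN (simM eM eU k ini B0 (num w) (num y) r) = 1 := by
      rw [hval]
      exact (accN_num _).2 hacc
    intro h0
    rw [sum_eq_zero_iff] at h0
    have hy1 : num y ∈ range (2 ^ (c * n + 1)) := by
      rw [mem_range]
      have h4 := Nat.lt_pow_succ_log_self (b := 2) (by norm_num) (num y)
      rw [log_num] at h4
      exact lt_of_lt_of_le h4 (Nat.pow_le_pow_right (by norm_num) (by omega))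
    have h5 := h0 (num y) hy1
    rw [sum_eq_zero_iff] at h5
    have h6 := h5 r (mem_range.2 (by omega))
    rw [hacc1, lt01, if_pos (num_pos y)] at h6
    omega

/-- The main theorem. -/
theorem main (c : ℕ) :
    (∀ (A : MPC) (k : ℕ) (L : Set (List Bool)) (C ε : ℝ), 0 < ε →
      A.Accepts k L (fun n => (c : ℝ) * n) (fun n => C * ((n : ℝ) + 1) ^ (1 - ε))
        (fun n => C * ((n : ℝ) + 1) ^ (1 - ε)) → DLINSPACE L) ∧
    ∃ L : Set (List Bool), DLINSPACE L ∧ ∀ (A : MPC) (k : ℕ) (C ε : ℝ), 0 < ε →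
      ¬ A.Accepts k L (fun n => (c : ℝ) * n) (fun n => C * ((n : ℝ) + 1) ^ (1 - ε))
        (fun n => C * ((n : ℝ) + 1) ^ (1 - ε)) := by
  have hrun : ∀ (A : MPC) (k : ℕ) (L : Set (List Bool)) (C ε : ℝ), 0 < ε →
      A.Accepts k L (fun n => (c : ℝ) * n) (fun n => C * ((n : ℝ) + 1) ^ (1 - ε))
        (fun n => C * ((n : ℝ) + 1) ^ (1 - ε)) →
      ∃ e N : ℕ, ∀ w : List Bool, N ≤ w.length → (w ∈ L ↔ UM c e (num w) ≠ 0) := by
    intro A k L C ε hε hA
    obtain ⟨e, n₀, he⟩ := exists_UM A k c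
    obtain ⟨n₁, hn₁⟩ := eventually_atTop.1 (ev_RR hε C)
    refine ⟨e, max n₀ n₁, fun w hw => ?_⟩
    obtain ⟨h1, h2⟩ := he w ((le_max_left _ _).trans hw)
    have h3 := hn₁ w.length ((le_max_right _ _).trans hw)
    constructor
    · intro hwL
      obtain ⟨y, r, hy, hr, hfit, hacc⟩ := hA.2 w hwL
      refine h2 y r ?_ ?_ (Fits_mono ?_ hfit) hacc
      · have hy' : ((y.length : ℕ) : ℝ) ≤ (c : ℝ) * (w.length : ℝ) := hy
        exact_mod_cast hy'
      · exact_mod_cast hr.trans h3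
      · refine h3.trans ?_
        exact_mod_cast RR_le_SS w.length
    · intro h
      obtain ⟨y, r, hacc⟩ := h1 h
      exact hA.1 w y r hacc
  constructor
  · classical
    intro A L' L C ε hε hA
    obtain ⟨e, N, he⟩ := hrun A L' L C ε hε hA
    let B : ℕ := tab 2 (2 ^ (N + 1)) fun x => if ∃ w ∈ L, num w = x then 1 else 0
    refine LS.dlinspace (F := fun x => ifz (le01 N (Nat.log 2 x)) (dig 2 B x) (UM c e x)) ?_ L ?_
    · exact LS.ifz (by fun_prop) (by fun_prop) (LS.UM c (LS.const e) LS.id)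
    · intro w
      by_cases h : N ≤ w.length
      · have h1 : le01 N (Nat.log 2 (num w)) = 1 := by
          rw [log_num, le01, if_pos h]
        simp only [h1]
        rw [ifz_ne one_ne_zero]
        exact he w h
      · have h1 : le01 N (Nat.log 2 (num w)) = 0 := by
          rw [log_num, le01, if_neg h]
        simp only [h1]
        rw [ifz_zero]
        have h2 : num w < 2 ^ (N + 1) := by
          have h3 := Nat.lt_pow_succ_log_self (b := 2) (by norm_num) (num w)
          rw [log_num] at h3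
          exact lt_of_lt_of_le h3 (Nat.pow_le_pow_right (by norm_num) (by omega))
        have h3 : dig 2 B (num w) = if ∃ w' ∈ L, num w' = num w then 1 else 0 := by
          refine dig_tab ?_ h2
          intro i _
          split_ifs <;> norm_num
        rw [h3]
        constructor
        · intro hw
          rw [if_pos ⟨w, hw, rfl⟩]
          exact one_ne_zero
        · intro h4
          by_contra hw
          apply h4
          rw [if_neg]
          rintro ⟨w', hw', h5⟩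
          rw [num_injective h5] at hw'
          exact hw hw'
  · refine ⟨{w | UM c (lead (num w)) (num w) = 0}, ?_, ?_⟩
    · refine LS.dlinspace (F := fun x => ifz (UM c (lead x) x) 1 0) ?_ _ ?_
      · exact LS.ifz (LS.UM c (LS.lead LS.id) LS.id) (LS.const 1) (LS.const 0)
      · intro w
        simp only [Set.mem_ofPred_eq]
        constructor
        · intro h
          rw [h]
          exact one_ne_zero
        · intro h
          by_contra h2
          exact h (ifz_ne h2 _ _)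
    · intro A k C ε hε hA
      obtain ⟨e, N, he⟩ := hrun A k _ C ε hε hA
      have hlen : N ≤ (dw e N).length := by
        rw [length_dw]
        omega
      have hlead : lead (num (dw e N)) = e := lead_dw _ _
      have h1 := he (dw e N) hlen
      have h2 : dw e N ∈ {w : List Bool | UM c (lead (num w)) (num w) = 0} ↔
          UM c e (num (dw e N)) = 0 := by
        show UM c (lead (num (dw e N))) (num (dw e N)) = 0 ↔ _
        rw [hlead]
      rw [h2] at h1
      exact absurd h1 (by tauto)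

end Pool.Agent.Helper78.Mpc
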