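import Pool.Agent.Helper78.Mpc.MTree
import Pool.Agent.Helper65.LinSpace.Asym

/-!
# Parameters and the universal function for massively parallel computation
-/

namespace Pool.Agent.Helper78.Mpc

open Pool.Agent.Helper65.LinSpace Finset

variable {α : Type} [Ctx α]

/-! ### Linear space -/

@[fun_prop]
theorem LS.packL {M l a j : α → ℕ} (hM : LS M) (hl : LS l) (ha : LS a) (hj : LS j) :
    LS (fun z => packL (M z) (l z) (a z) (j z)) := by
  unfold Mpc.packL
  fun_prop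

@[fun_prop]
theorem LS.chM {lam M u i : α → ℕ} (hlam : LS lam) (hM : LS M) (hu : LS u) (hi : LS i) :
    LS (fun z => chM (lam z) (M z) (u z) (i z)) := by
  unfold Mpc.chM
  fun_prop

@[fun_prop]
theorem LS.leafM {S ini B0 M x y u : α → ℕ} (hS : LS S) (hini : LS ini) (hB0 : LS B0) (hM : LS M)
    (hx : LS x) (hy : LS y) (hu : LS u) :
    LS (fun z => leafM (S z) (ini z) (B0 z) (M z) (x z) (y z) (u z)) := by
  unfold Mpc.leafM
  fun_prop

theorem LS.sendN {eM S Λ β B a j v C : α → ℕ} (he : LS eM) (hS : LS S) (hΛ : LS Λ) (hβ : LS β)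
    (hB : LS B) (ha : LS a) (hj : LS j) (hv : LS v) (hC : LS C) (hβ0 : ∀ z, 0 < β z)
    (hb : ∀ z, β z ^ Λ z ≤ C z) (hb2 : ∀ z, 2 ^ (S z + 1) ≤ C z) :
    LS (fun z => sendN (eM z) (S z) (Λ z) (β z) (B z) (a z) (j z) (v z)) := by
  have h := LS.fnN (x := fun z => Mpc.catN (Mpc.sdN (Mpc.bitsN (a z)))
    (Mpc.catN (Mpc.sdN (Mpc.bitsN (j z))) (v z)))
    he hS hΛ hβ hB (by fun_prop) hC hβ0 hb hb2
  unfold Mpc.sendN
  exact LS.ifz h (LS.const 0) (LS.ifz (LS.sub h (LS.const 1)) (LS.const 1)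
    (LS.catN (by fun_prop) (LS.sdN h)))

theorem LS.FN {eM eU S Λ β B m M u x C : α → ℕ} (heM : LS eM) (heU : LS eU) (hS : LS S)
    (hΛ : LS Λ) (hβ : LS β) (hB : LS B) (hm : LS m) (hM : LS M) (hu : LS u) (hx : LS x)
    (hC : LS C) (hβ0 : ∀ z, 0 < β z) (hb : ∀ z, β z ^ Λ z ≤ C z)
    (hb2 : ∀ z, 2 ^ (S z + 1) ≤ C z) :
    LS (fun z => FN (eM z) (eU z) (S z) (Λ z) (β z) (B z) (m z) (M z) (u z) (x z)) := by
  have hp : LS (fun z => 2 ^ (S z + 1)) := LS.pow_of_le (f := fun _ => 2) (by fun_prop)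
    (by fun_prop) hC hb2
  have hd0 : LS (fun z => dig (2 ^ (S z + 1)) (x z) 0) := LS.dig hp hx (LS.const 0)
  have hd1 : LS (fun z => dig (2 ^ (S z + 1)) (x z) 1) := LS.dig hp hx (LS.const 1)
  have h1 := LS.fnN (x := fun z => Mpc.catN (Mpc.sdN (Mpc.bitsN (u z % M z)))
    (dig (2 ^ (S z + 1)) (x z) 0))
    heU hS hΛ hβ hB (LS.catN (by fun_prop) hd0) hC hβ0 hb hb2
  have h2 := LS.sendN (a := fun z => u z / M z % M z) (j := fun z => u z % M z) heM hS hΛ hβ hB
    (by fun_prop) (by fun_prop) hd0 hC hβ0 hb hb2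
  unfold Mpc.FN
  exact LS.capN hS (LS.ifz (by fun_prop) h1 (LS.ifz (by fun_prop)
    (LS.ifz (by fun_prop) (LS.const 1) h2) (LS.catN hd0 hd1)))

/-- The prime of the simulation. -/
noncomputable def pS (S : ℕ) : ℕ := nextPrime (2 * (S + 1) + 2)

theorem pS_spec (S : ℕ) : (pS S).Prime ∧ 2 * (S + 1) + 2 < pS S ∧ pS S ≤ 2 * (2 * (S + 1) + 2) :=
  nextPrime_spec (by omega)

theorem LS.VV {eM eU S Λ β B m lam ini B0 x y h u C : α → ℕ} (heM : LS eM) (heU : LS eU)
    (hS : LS S) (hΛ : LS Λ) (hβ : LS β) (hB : LS B) (hm : LS m) (hlam : LS lam) (hini : LS ini)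
    (hB0 : LS B0) (hx : LS x) (hy : LS y) (hh : LS h) (hu : LS u) (hC : LS C)
    (hβ0 : ∀ z, 0 < β z) (hb : ∀ z, β z ^ Λ z ≤ C z)
    (hb3 : ∀ z, pS (S z) ^ (3 * (S z + 1)) ≤ C z) (hb4 : ∀ z, MM (pS (S z)) 2 ^ h z ≤ C z)
    (hb5 : ∀ z, 2 ^ lam z ≤ C z) :
    LS (fun z => VV (eM z) (eU z) (S z) (Λ z) (β z) (B z) (m z) (lam z) (ini z) (B0 z) (x z) (y z)
      (h z) (u z)) := by
  have hM : LS (fun z => 2 ^ lam z) := LS.pow_of_le (f := fun _ => 2) (by fun_prop) hlam hC hb5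
  have hb2 : ∀ z, 2 ^ (S z + 1) ≤ C z := fun z => by
    refine le_trans ?_ (hb3 z)
    refine (Nat.pow_le_pow_left (pS_spec (S z)).1.two_le _).trans ?_
    exact Nat.pow_le_pow_right (pS_spec (S z)).1.pos (by omega)
  unfold Mpc.VV
  refine LS.gval (p := fun z => pS (S z)) (D := fun _ => 2) (L := fun z => S z + 1) (h := h)
    (root := u) (G := fun z => (lam z + 2) * (2 ^ lam z * 2 ^ lam z)) (C := C)
    (F := fun z => Mpc.FN (eM z) (eU z) (S z) (Λ z) (β z) (B z) (m z) (2 ^ lam z))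
    (leaf := fun z => Mpc.leafM (S z) (ini z) (B0 z) (2 ^ lam z) (x z) (y z))
    (ch := fun z => Mpc.chM (lam z) (2 ^ lam z)) ?_ (LS.const 2) (by fun_prop) hh hu ?_ hC
    ?_ ?_ ?_ ?_ ?_ ?_ ?_ ?_ ?_ ?_ ?_
  · unfold pS
    fun_prop
  · exact LS.mul (by fun_prop) (LS.mul hM hM)
  · exact LS.FN (eM := fun q : α × ℕ × ℕ => eM q.1) (eU := fun q => eU q.1) (S := fun q => S q.1)
      (Λ := fun q => Λ q.1) (β := fun q => β q.1) (B := fun q => B q.1) (m := fun q => m q.1)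
      (M := fun q => 2 ^ lam q.1) (u := fun q => q.2.1) (x := fun q => q.2.2)
      (C := fun q => C q.1) (by fun_prop) (by fun_prop) (by fun_prop) (by fun_prop)
      (by fun_prop) (by fun_prop) (by fun_prop)
      (LS.comp (f := fun q : α × ℕ × ℕ => q.1) hM (by fun_prop)) (by fun_prop) (by fun_prop)
      (by fun_prop) (fun q => hβ0 q.1) (fun q => hb q.1) (fun q => hb2 q.1)
  · exact LS.leafM (by fun_prop) (by fun_prop) (by fun_prop)
      (LS.comp (f := fun q : α × ℕ => q.1) hM (by fun_prop)) (by fun_prop) (by fun_prop)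
      (by fun_prop)
  · exact LS.chM (by fun_prop) (LS.comp (f := fun q : α × ℕ × ℕ => q.1) hM (by fun_prop))
      (by fun_prop) (by fun_prop)
  · intro z u i
    exact chM_le (by positivity) _ _ _
  · intro z
    exact (pS_spec (S z)).1
  · intro z
    have := (pS_spec (S z)).2.1
    omega
  · intro z
    have := (pS_spec (S z)).2.1
    show 2 * (S z + 1) < pS (S z) - 1
    omega
  · intro z u x
    exact capN_lt _ _
  · intro z u
    exact capN_lt _ _
  · exact hb3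
  · exact hb4

/-! ### Parameters -/

/-- The memory of the machines in the simulation. -/
def SS (n : ℕ) : ℕ := n / (ll n * ll n * ll n)

/-- The number of cells in the universal simulation. -/
def LW (n : ℕ) : ℕ := n / ll n

/-- The number of rounds of the simulation. -/
def RR (n : ℕ) : ℕ := n / (ll n * ll n * ll n * ll n)

/-- The logarithm of the number of machines of the simulation. -/
def la (n : ℕ) : ℕ := ll n * ll n

/-- The bound for all numbers. -/
def CM (x : ℕ) : ℕ := (x + 2) ^ 48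

theorem two_pow_le_CM {x t : ℕ} (h : t ≤ 24 * (Nat.log 2 x + 1)) : 2 ^ t ≤ CM x :=
  (Nat.pow_le_pow_right (by norm_num) h).trans (two_pow_log_le x 24)

theorem LW_mul (n : ℕ) : LW n * ll n ≤ n := Nat.div_mul_le_self _ _

theorem SS_mul (n : ℕ) : SS n * (ll n * ll n * ll n) ≤ n := Nat.div_mul_le_self _ _

theorem RR_mul (n : ℕ) : RR n * (ll n * ll n * ll n * ll n) ≤ n := Nat.div_mul_le_self _ _

theorem SS_mul_ll (n : ℕ) : SS n * ll n ≤ n := by
  refine le_trans ?_ (SS_mul n)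
  refine Nat.mul_le_mul_left _ ?_
  have := ll_pos n
  nlinarith [Nat.mul_le_mul this this]

theorem RR_mul3 (n : ℕ) : RR n * (ll n * ll n * ll n) ≤ n := by
  refine le_trans ?_ (RR_mul n)
  exact Nat.mul_le_mul_left _ (Nat.le_mul_of_pos_right _ (ll_pos n))

theorem beta_pow_le (x : ℕ) : (2 ^ (2 * ll (Nat.log 2 x))) ^ LW (Nat.log 2 x) ≤ CM x := by
  rw [← pow_mul]
  refine two_pow_le_CM ?_
  have h := LW_mul (Nat.log 2 x)
  nlinarith

theorem pS_le (n : ℕ) : pS (SS n) ≤ 2 ^ (ll n + 3) := by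
  have h1 := (pS_spec (SS n)).2.2
  have h2 : SS n ≤ n := Nat.div_le_self _ _
  have h3 := lt_two_pow_ll n
  rw [pow_add]
  omega

theorem pS_pow_le (x : ℕ) :
    pS (SS (Nat.log 2 x)) ^ (3 * (SS (Nat.log 2 x) + 1)) ≤ CM x := by
  refine (Nat.pow_le_pow_left (pS_le _) _).trans ?_
  rw [← pow_mul]
  refine two_pow_le_CM ?_
  generalize Nat.log 2 x = n
  have h1 := SS_mul_ll n
  have h2 := ll_le n
  have h3 := ll_pos n
  calc (ll n + 3) * (3 * (SS n + 1)) ≤ (4 * ll n) * (3 * (SS n + 1)) :=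
        Nat.mul_le_mul_right _ (by omega)
    _ = 12 * (SS n * ll n) + 12 * ll n := by ring
    _ ≤ _ := by omega

theorem MMp_pow_le (x r : ℕ) :
    MM (pS (SS (Nat.log 2 x))) 2 ^ (min r (RR (Nat.log 2 x)) * (la (Nat.log 2 x) + 2)) ≤ CM x := by
  generalize hn : Nat.log 2 x = n
  have h0 : MM (pS (SS n)) 2 ≤ 2 ^ (ll n + 6) := by
    have h1 := pS_le n
    have e : 2 ^ (ll n + 6) = 8 * 2 ^ (ll n + 3) := by ring
    unfold MM
    rw [e]
    have h2 : (pS (SS n) - 1) * (2 * 2 + 3) = 7 * (pS (SS n) - 1) := by ring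
    omega
  refine (Nat.pow_le_pow_left h0 _).trans ?_
  rw [← pow_mul]
  subst hn
  refine two_pow_le_CM ?_
  generalize Nat.log 2 x = n
  have h1 := RR_mul3 n
  have h3 := ll_pos n
  have h4 : min r (RR n) ≤ RR n := min_le_right _ _
  have h5 : la n + 2 ≤ 3 * (ll n * ll n) := by
    unfold la
    have := Nat.mul_le_mul h3 h3
    omega
  calc (ll n + 6) * (min r (RR n) * (la n + 2)) ≤ (7 * ll n) * (RR n * (3 * (ll n * ll n))) :=
        Nat.mul_le_mul (by omega) (Nat.mul_le_mul h4 h5)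
    _ = 21 * (RR n * (ll n * ll n * ll n)) := by ring
    _ ≤ _ := by omega

theorem two_pow_la_le (x : ℕ) : 2 ^ la (Nat.log 2 x) ≤ CM x := by
  refine two_pow_le_CM ?_
  have := ll_sq_le (Nat.log 2 x)
  unfold la
  omega

@[fun_prop]
theorem LS.SS {n : α → ℕ} (hn : LS n) : LS (fun a => SS (n a)) := by
  unfold Mpc.SS
  fun_prop

@[fun_prop]
theorem LS.LW {n : α → ℕ} (hn : LS n) : LS (fun a => LW (n a)) := by
  unfold Mpc.LW
  fun_prop

@[fun_prop]
theorem LS.RR {n : α → ℕ} (hn : LS n) : LS (fun a => RR (n a)) := by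
  unfold Mpc.RR
  fun_prop

@[fun_prop]
theorem LS.la {n : α → ℕ} (hn : LS n) : LS (fun a => la (n a)) := by
  unfold Mpc.la
  fun_prop

@[fun_prop]
theorem LS.CM {x : α → ℕ} (hx : LS x) : LS (fun a => CM (x a)) := by
  unfold Mpc.CM
  fun_prop

/-- The memory of the machine `0` after `min r R` rounds. -/
def simM (eM eU k ini B0 x y r : ℕ) : ℕ :=
  VV eM eU (SS (Nat.log 2 x)) (LW (Nat.log 2 x)) (2 ^ (2 * ll (Nat.log 2 x))) (CM x)
    (capPow (Nat.log 2 x + 2) k (CM x)) (la (Nat.log 2 x)) ini B0 x y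
    (min r (RR (Nat.log 2 x)) * (la (Nat.log 2 x) + 2)) 0

theorem LS.simM {eM eU k ini B0 x y r : α → ℕ} (heM : LS eM) (heU : LS eU) (hk : LS k)
    (hini : LS ini) (hB0 : LS B0) (hx : LS x) (hy : LS y) (hr : LS r) :
    LS (fun z => simM (eM z) (eU z) (k z) (ini z) (B0 z) (x z) (y z) (r z)) := by
  have hβ : LS (fun z => 2 ^ (2 * ll (Nat.log 2 (x z)))) := by
    refine LS.pow_of_le (f := fun _ => 2) (by fun_prop) (by fun_prop)
      (C := fun z => Mpc.CM (x z)) (by fun_prop) fun z => two_pow_le_CM ?_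
    have := ll_le (Nat.log 2 (x z))
    omega
  unfold Mpc.simM
  exact LS.VV heM heU (by fun_prop) (by fun_prop) hβ (by fun_prop) (by fun_prop) (by fun_prop)
    hini hB0 hx hy (by fun_prop) (by fun_prop) (C := fun z => Mpc.CM (x z)) (by fun_prop)
    (fun z => by positivity) (fun z => beta_pow_le _) (fun z => pS_pow_le _)
    (fun z => MMp_pow_le _ _) (fun z => two_pow_la_le _)

/-- `1` if the number is the number of a word which begins with `1`, and `0` otherwise. -/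
def accN (v : ℕ) : ℕ := lt01 1 v * (v % 2)

theorem accN_le (v : ℕ) : accN v ≤ 1 := by
  unfold accN lt01
  have := Nat.mod_lt v (show 2 > 0 by norm_num)
  split_ifs <;> omega

theorem accN_num (w : List Bool) : accN (num w) = 1 ↔ w.head? = some true := by
  rcases w with _ | ⟨b, w⟩
  · simp [accN, num, lt01]
  · have h1 := num_pos w
    have h2 : num (b :: w) = b.toNat + 2 * num w := rfl
    unfold accN
    rw [lt01, if_pos (by omega), h2]
    cases b
    · simp
    · simp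

/-- The number of accepting guesses and rounds. -/
def UM (c e x : ℕ) : ℕ :=
  ∑ y ∈ range (2 ^ (c * Nat.log 2 x + 1)), ∑ r ∈ range (RR (Nat.log 2 x) + 1), lt01 0 y *
    accN (simM (Nat.unpair e).1 (Nat.unpair (Nat.unpair e).2).1
      (Nat.unpair (Nat.unpair (Nat.unpair e).2).2).1
      (Nat.unpair (Nat.unpair (Nat.unpair (Nat.unpair e).2).2).2).1
      (Nat.unpair (Nat.unpair (Nat.unpair (Nat.unpair e).2).2).2).2 x y r)

theorem LS.UM (c : ℕ) {e x : α → ℕ} (he : LS e) (hx : LS x) : LS (fun a => UM c (e a) (x a)) := by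
  have hsim : LS (fun z : (α × ℕ) × ℕ => Mpc.simM (Nat.unpair (e z.1.1)).1
      (Nat.unpair (Nat.unpair (e z.1.1)).2).1
      (Nat.unpair (Nat.unpair (Nat.unpair (e z.1.1)).2).2).1
      (Nat.unpair (Nat.unpair (Nat.unpair (Nat.unpair (e z.1.1)).2).2).2).1
      (Nat.unpair (Nat.unpair (Nat.unpair (Nat.unpair (e z.1.1)).2).2).2).2 (x z.1.1) z.1.2 z.2) :=
    LS.simM (by fun_prop) (by fun_prop) (by fun_prop) (by fun_prop) (by fun_prop) (by fun_prop)
      (by fun_prop) (by fun_prop)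
  have hacc : LS (fun z : (α × ℕ) × ℕ => lt01 0 z.1.2 * accN (Mpc.simM (Nat.unpair (e z.1.1)).1
      (Nat.unpair (Nat.unpair (e z.1.1)).2).1
      (Nat.unpair (Nat.unpair (Nat.unpair (e z.1.1)).2).2).1
      (Nat.unpair (Nat.unpair (Nat.unpair (Nat.unpair (e z.1.1)).2).2).2).1
      (Nat.unpair (Nat.unpair (Nat.unpair (Nat.unpair (e z.1.1)).2).2).2).2
      (x z.1.1) z.1.2 z.2)) := by
    unfold accN
    exact LS.mul (by fun_prop) (LS.mul (LS.lt01 (LS.const 1) hsim) (LS.mod hsim (LS.const 2)))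
  have hle : ∀ (a : α) (y r : ℕ), lt01 0 y * accN (Mpc.simM (Nat.unpair (e a)).1
      (Nat.unpair (Nat.unpair (e a)).2).1
      (Nat.unpair (Nat.unpair (Nat.unpair (e a)).2).2).1
      (Nat.unpair (Nat.unpair (Nat.unpair (Nat.unpair (e a)).2).2).2).1
      (Nat.unpair (Nat.unpair (Nat.unpair (Nat.unpair (e a)).2).2).2).2 (x a) y r) ≤ 1 := by
    intro a y r
    have h1 : lt01 0 y ≤ 1 := by
      unfold lt01
      split_ifs <;> omega
    calc _ ≤ 1 * 1 := Nat.mul_le_mul h1 (accN_le _)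
      _ = 1 := rfl
  unfold Mpc.UM
  refine LS.sum_le (N := fun a => 2 ^ (c * Nat.log 2 (x a) + 1))
    (B := fun a => (Mpc.RR (Nat.log 2 (x a)) + 1) * 1) (f := fun a y =>
      ∑ r ∈ range (Mpc.RR (Nat.log 2 (x a)) + 1), lt01 0 y *
    accN (Mpc.simM (Nat.unpair (e a)).1 (Nat.unpair (Nat.unpair (e a)).2).1
      (Nat.unpair (Nat.unpair (Nat.unpair (e a)).2).2).1
      (Nat.unpair (Nat.unpair (Nat.unpair (Nat.unpair (e a)).2).2).2).1
      (Nat.unpair (Nat.unpair (Nat.unpair (Nat.unpair (e a)).2).2).2).2 (x a) y r)) ?_ ?_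
    (by fun_prop) ?_
  · exact LS.sum_le (α := α × ℕ) (N := fun z => Mpc.RR (Nat.log 2 (x z.1)) + 1) (B := fun _ => 1)
      (f := fun z r => lt01 0 z.2 * accN (Mpc.simM (Nat.unpair (e z.1)).1
      (Nat.unpair (Nat.unpair (e z.1)).2).1
      (Nat.unpair (Nat.unpair (Nat.unpair (e z.1)).2).2).1
      (Nat.unpair (Nat.unpair (Nat.unpair (Nat.unpair (e z.1)).2).2).2).1
      (Nat.unpair (Nat.unpair (Nat.unpair (Nat.unpair (e z.1)).2).2).2).2 (x z.1) z.2 r))
      hacc (by fun_prop) (by fun_prop) (fun z r _ => hle z.1 z.2 r)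
  · refine LS.pow_of_le (f := fun _ => 2) (g := fun a => c * Nat.log 2 (x a) + 1)
      (C := fun a => (x a + 2) ^ (2 * (c + 1))) (by fun_prop) (by fun_prop) (by fun_prop)
      fun a => ?_
    refine le_trans ?_ (two_pow_log_le (x a) (c + 1))
    refine Nat.pow_le_pow_right (by norm_num) ?_
    ring_nf
    omega
  · intro a y _
    refine (sum_le_sum (g := fun _ => 1) fun r _ => hle a y r).trans ?_
    simp

end Pool.Agent.Helper78.Mpc
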