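import Pool.Agent.Helper78.Mpc.Univ

/-!
# Correctness of the universal simulation
-/

namespace Pool.Agent.Helper78.Mpc

open Pool.Agent.Helper65.LinSpace Finset

/-- The code of a direction. -/
def dirN : Dir → ℕ
  | .left => 0
  | .stay => 1
  | .right => 2

theorem dirN_lt (d : Dir) : dirN d < 3 := by cases d <;> simp [dirN]

/-- The decoding of a letter. -/
def optN (i : ℕ) : Option Bool := if i = 0 then none else if i = 1 then some false else some true

theorem optN_codeO (o : Option Bool) : optN (codeO o) = o := by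
  rcases o with _ | _ | _ <;> rfl

theorem codeO_lt (o : Option Bool) : codeO o < 3 := by
  rcases o with _ | _ | _ <;> simp [codeO]

section

variable {k : ℕ} (M : TM k) {a q : ℕ} (eS : M.State ≃ Fin a) (eY : M.Sym ≃ Fin q)

/-- The position of a head in the simulation. -/
def headN (o : ℕ) (c : M.Cfg) (i : ℕ) : ℕ := if h : i < k then (c.head ⟨i, h⟩ + o).toNat else 0

/-- The code of a symbol of a work tape. -/
def symN (o : ℕ) (c : M.Cfg) (i pos : ℕ) : ℕ :=
  if h : i < k then eY (c.tape ⟨i, h⟩ ((pos : ℤ) - o)) else 0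

/-- The digits of a configuration. -/
def encC (o : ℕ) (c : M.Cfg) (idx : ℕ) : ℕ :=
  if idx = 0 then eS c.state else if idx = 1 then c.inp else if idx < 2 + k then
    headN M o c (idx - 2) else if idx < 2 + k + k * (2 * o + 1) then
      symN M eY o c ((idx - (2 + k)) / (2 * o + 1)) ((idx - (2 + k)) % (2 * o + 1)) else 0

/-- The decoding of a state. -/
noncomputable def decS (i : ℕ) : M.State := if h : i < a then eS.symm ⟨i, h⟩ else M.start

/-- The decoding of a symbol. -/
noncomputable def decY (i : ℕ) : M.Sym := if h : i < q then eY.symm ⟨i, h⟩ else M.blank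

theorem decS_eS (s : M.State) : decS M eS (eS s) = s := by
  have h : (eS s : ℕ) < a := (eS s).2
  rw [decS, dif_pos h]
  exact eS.symm_apply_apply s

theorem decY_eY (s : M.Sym) : decY M eY (eY s) = s := by
  have h : (eY s : ℕ) < q := (eY s).2
  rw [decY, dif_pos h]
  exact eY.symm_apply_apply s

/-- The numbers which describe an action. -/
def ent (r : M.State × Dir × (Fin k → M.Sym × Dir)) (f : ℕ) : ℕ :=
  if f = 0 then (eS r.1 : ℕ) + 1 else if f = 1 then dirN r.2.1 else
    if h : (f - 2) / 2 < k then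
      (if (f - 2) % 2 = 0 then (eY (r.2.2 ⟨(f - 2) / 2, h⟩).1 : ℕ) else
        dirN (r.2.2 ⟨(f - 2) / 2, h⟩).2) else 0

/-- The entries of the transition table. -/
noncomputable def tbl (st ins sy f : ℕ) : ℕ :=
  (M.step (decS M eS st) (optN ins) (fun i => decY M eY (dig q sy i))).elim 0 fun r =>
    ent M eS eY r f

theorem tbl_lt (st ins sy f : ℕ) : tbl M eS eY st ins sy f < a + q + 4 := by
  unfold tbl
  rcases M.step (decS M eS st) (optN ins) (fun i => decY M eY (dig q sy i)) with _ | r
  · show 0 < _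
    omega
  · show ent M eS eY r f < _
    unfold ent
    have h1 := (eS r.1).2
    have h2 := dirN_lt r.2.1
    split_ifs with h3 h4 h5 h6
    · omega
    · omega
    · have := (eY (r.2.2 ⟨(f - 2) / 2, h5⟩).1).2
      omega
    · have := dirN_lt (r.2.2 ⟨(f - 2) / 2, h5⟩).2
      omega
    · omega

/-- The transition table. -/
noncomputable def TT : ℕ :=
  tab (a + q + 4) (a * 3 * q ^ k * (2 * k + 2)) fun n =>
    tbl M eS eY (n / (2 * k + 2) / q ^ k / 3) (n / (2 * k + 2) / q ^ k % 3)
      (n / (2 * k + 2) % q ^ k) (n % (2 * k + 2))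

theorem dig_TT {st ins sy f : ℕ} (h1 : st < a) (h2 : ins < 3) (h3 : sy < q ^ k)
    (h4 : f < 2 * k + 2) :
    dig (a + q + 4) (TT M eS eY) (((st * 3 + ins) * q ^ k + sy) * (2 * k + 2) + f) =
      tbl M eS eY st ins sy f := by
  have e1 : (((st * 3 + ins) * q ^ k + sy) * (2 * k + 2) + f) / (2 * k + 2) =
    (st * 3 + ins) * q ^ k + sy := div_eq_block h4
  have e2 : (((st * 3 + ins) * q ^ k + sy) * (2 * k + 2) + f) % (2 * k + 2) = f :=
    mod_eq_block h4
  have e3 : ((st * 3 + ins) * q ^ k + sy) / q ^ k = st * 3 + ins := div_eq_block h3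
  have e4 : ((st * 3 + ins) * q ^ k + sy) % q ^ k = sy := mod_eq_block h3
  have e5 : (st * 3 + ins) / 3 = st := div_eq_block h2
  have e6 : (st * 3 + ins) % 3 = ins := mod_eq_block h2
  rw [TT, dig_tab (fun _ _ => tbl_lt M eS eY _ _ _ _)]
  · rw [e1, e2, e3, e4, e5, e6]
  · have i1 : st * 3 + ins < a * 3 := by omega
    have i2 : (st * 3 + ins) * q ^ k + sy < a * 3 * q ^ k := by
      have : (st * 3 + ins + 1) * q ^ k ≤ a * 3 * q ^ k := Nat.mul_le_mul_right _ i1
      rw [Nat.succ_mul] at this
      omega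
    have : ((st * 3 + ins) * q ^ k + sy + 1) * (2 * k + 2) ≤ a * 3 * q ^ k * (2 * k + 2) :=
      Nat.mul_le_mul_right _ i2
    rw [Nat.succ_mul] at this
    omega

variable {M eS eY}

/-- The heads of a configuration are within distance `o` of the origin. -/
def InR (o : ℕ) (c : M.Cfg) : Prop := ∀ i, |c.head i| ≤ (o : ℤ)

theorem headN_lt {o : ℕ} {c : M.Cfg} (hc : InR o c) (i : ℕ) : headN M o c i < 2 * o + 1 := by
  unfold headN
  split_ifs with h
  · have := abs_le.1 (hc ⟨i, h⟩)
    omega
  · omega

theorem symN_lt {o : ℕ} {c : M.Cfg} (i pos : ℕ) : symN M eY o c i pos < q := by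
  have hq : 0 < q := lt_of_le_of_lt (Nat.zero_le _) (eY M.blank).2
  unfold symN
  split_ifs with h
  · exact (eY _).2
  · exact hq

theorem encC_lt {o β : ℕ} {w : List Bool} {c : M.Cfg} (hc : InR o c) (hin : c.inp ≤ w.length + 1)
    (hβ : a + q + 2 * o + w.length + 3 ≤ β) (idx : ℕ) : encC M eS eY o c idx < β := by
  unfold encC
  have h1 := (eS c.state).2
  have h2 := headN_lt hc (idx - 2)
  have h3 := symN_lt (eY := eY) (o := o) (c := c) ((idx - (2 + k)) / (2 * o + 1))
    ((idx - (2 + k)) % (2 * o + 1))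
  split_ifs <;> omega

theorem syV_eq {o Λ β : ℕ} {w : List Bool} {c : M.Cfg} (hc : InR o c)
    (hin : c.inp ≤ w.length + 1) (hβ : a + q + 2 * o + w.length + 3 ≤ β) (hq : q ^ k ≤ β)
    (hΛ : 2 + k + k * (2 * o + 1) ≤ Λ) :
    syV k q o β (tab β Λ (encC M eS eY o c)) = tab q k fun i => symN M eY o c i (headN M o c i) := by
  unfold syV tab
  have hq0 : 0 < q := lt_of_le_of_lt (Nat.zero_le _) (eY M.blank).2
  refine sum_congr rfl fun i hi => ?_
  rw [mem_range] at hi
  have hlt := encC_lt (eS := eS) (eY := eY) hc hin hβ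
  have h1 : (i + 1) * (2 * o + 1) ≤ k * (2 * o + 1) := Nat.mul_le_mul_right _ hi
  rw [Nat.succ_mul] at h1
  have h2 : dig β (tab β Λ (encC M eS eY o c)) (2 + i) = headN M o c i := by
    rw [dig_tab (fun _ _ => hlt _) (by omega)]
    unfold encC
    rw [if_neg (by omega), if_neg (by omega), if_pos (by omega)]
    congr 1
    omega
  have h3 := headN_lt hc i
  change dig β (tab β Λ (encC M eS eY o c)) (2 + k + i * (2 * o + 1) +
    dig β (tab β Λ (encC M eS eY o c)) (2 + i)) * capPow q i β = _
  rw [h2, dig_tab (fun _ _ => hlt _) (by omega)]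
  have h4 : encC M eS eY o c (2 + k + i * (2 * o + 1) + headN M o c i) =
      symN M eY o c i (headN M o c i) := by
    unfold encC
    rw [if_neg (by omega), if_neg (by omega), if_neg (by omega), if_pos (by omega)]
    have h5 : 2 + k + i * (2 * o + 1) + headN M o c i - (2 + k) =
      i * (2 * o + 1) + headN M o c i := by omega
    rw [h5, div_eq_block h3, mod_eq_block h3]
  rw [h4, capPow, min_eq_left]
  have : q ^ i ≤ q ^ k := Nat.pow_le_pow_right hq0 hi.le
  omega

theorem bsV_eq {o Λ β : ℕ} {w : List Bool} {c : M.Cfg} (hc : InR o c)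
    (hin : c.inp ≤ w.length + 1) (hβ : a + q + 2 * o + w.length + 3 ≤ β) (hq : q ^ k ≤ β)
    (hΛ : 2 + k + k * (2 * o + 1) ≤ Λ) :
    bsV k q (q ^ k) o β (num w) (tab β Λ (encC M eS eY o c)) =
      ((eS c.state * 3 + codeO (inputSym w c.inp)) * q ^ k +
        tab q k fun i => symN M eY o c i (headN M o c i)) * (2 * k + 2) := by
  have hlt := encC_lt (eS := eS) (eY := eY) hc hin hβ
  have h0 : dig β (tab β Λ (encC M eS eY o c)) 0 = eS c.state := by
    rw [dig_tab (fun _ _ => hlt _) (by omega)]
    rfl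
  have h1 : dig β (tab β Λ (encC M eS eY o c)) 1 = c.inp := by
    rw [dig_tab (fun _ _ => hlt _) (by omega)]
    rfl
  unfold bsV
  rw [syV_eq hc hin hβ hq hΛ, h0, h1, inN_num]

theorem tbl_eq {o : ℕ} {w : List Bool} {c : M.Cfg} (hc : InR o c) (f : ℕ) :
    tbl M eS eY (eS c.state) (codeO (inputSym w c.inp))
      (tab q k fun i => symN M eY o c i (headN M o c i)) f =
    (M.step c.state (inputSym w c.inp) (fun i => c.tape i (c.head i))).elim 0 fun r =>
      ent M eS eY r f := by
  unfold tbl
  rw [decS_eS, optN_codeO]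
  congr 2
  funext i
  rw [dig_tab (fun _ _ => symN_lt _ _) i.2]
  unfold symN headN
  rw [dif_pos i.2, dif_pos i.2, decY_eY]
  congr 1
  have := abs_le.1 (hc i)
  simp only [Fin.eta]
  omega

theorem inputMove_eq (w : List Bool) (d : Dir) (i : ℕ) :
    inputMove w d i = ifz (dirN d) (i - 1) (ifz (dirN d - 1) i (min (i + 1) (w.length + 1))) := by
  cases d <;> rfl

theorem inputMove_le (w : List Bool) (d : Dir) {i : ℕ} (hi : i ≤ w.length + 1) :
    inputMove w d i ≤ w.length + 1 := by
  cases d
  · show i - 1 ≤ _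
    omega
  · exact hi
  · exact min_le_right _ _

/-- **One step of the simulation.** -/
theorem stepV_eq {o Λ β : ℕ} {w : List Bool} {c : M.Cfg} (hc : InR o c)
    (hc' : InR o ((M.next w c).getD c))
    (hin : c.inp ≤ w.length + 1) (hβ : a + q + 2 * o + w.length + 3 ≤ β) (hq : q ^ k ≤ β)
    (hΛ : 2 + k + k * (2 * o + 1) ≤ Λ) :
    stepV k q (q ^ k) (a + q + 4) (TT M eS eY) o Λ β (num w) (tab β Λ (encC M eS eY o c)) =
      tab β Λ (encC M eS eY o ((M.next w c).getD c)) := by
  have hlt := encC_lt (eS := eS) (eY := eY) hc hin hβ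
  have hq0 : 0 < q := lt_of_le_of_lt (Nat.zero_le _) (eY M.blank).2
  have hin' : ((M.next w c).getD c).inp ≤ w.length + 1 := by
    unfold TM.next
    rcases M.step c.state (inputSym w c.inp) (fun i => c.tape i (c.head i)) with _ | r
    · exact hin
    · exact inputMove_le _ _ hin
  have hlt' := encC_lt (eS := eS) (eY := eY) hc' hin' hβ
  unfold stepV
  rw [bsV_eq hc hin hβ hq hΛ]
  set sy := tab q k fun i => symN M eY o c i (headN M o c i) with hsy
  have hsylt : sy < q ^ k := tab_lt fun i _ => symN_lt _ _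
  set bs := ((eS c.state * 3 + codeO (inputSym w c.inp)) * q ^ k + sy) * (2 * k + 2) with hbs
  have hT : ∀ f < 2 * k + 2, dig (a + q + 4) (TT M eS eY) (bs + f) =
      (M.step c.state (inputSym w c.inp) (fun i => c.tape i (c.head i))).elim 0 fun r =>
        ent M eS eY r f := fun f hf => by
    rw [hbs, dig_TT M eS eY (eS c.state).2 (codeO_lt _) hsylt hf, hsy, tbl_eq hc]
  have hR : ∀ idx < Λ, dig β (tab β Λ (encC M eS eY o c)) idx = encC M eS eY o c idx :=
    fun idx h => dig_tab (fun _ _ => hlt _) h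
  refine tab_congr fun idx hidx => ?_
  rw [← Nat.mod_eq_of_lt (hlt' idx)]
  congr 1
  unfold TM.next
  rcases hr : M.step c.state (inputSym w c.inp) (fun i => c.tape i (c.head i)) with _ | r
  · have h0 : dig (a + q + 4) (TT M eS eY) bs = 0 := by
      have := hT 0 (by omega)
      rw [hr] at this
      exact this
    unfold ndV
    rw [h0, ifz_zero, hR idx hidx]
    rfl
  · rw [hr] at hT
    have h0 : dig (a + q + 4) (TT M eS eY) bs = eS r.1 + 1 := hT 0 (by omega)
    have h1 : dig (a + q + 4) (TT M eS eY) (bs + 1) = dirN r.2.1 := hT 1 (by omega)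
    have h2 : ∀ (i : ℕ) (hi : i < k), dig (a + q + 4) (TT M eS eY) (bs + 2 + 2 * i) =
        eY (r.2.2 ⟨i, hi⟩).1 := by
      intro i hi
      have := hT (2 + 2 * i) (by omega)
      rw [← add_assoc] at this
      rw [this]
      show ent M eS eY r _ = _
      unfold ent
      have e1 : (2 + 2 * i - 2) / 2 = i := by omega
      rw [if_neg (by omega), if_neg (by omega), dif_pos (by omega), if_pos (by omega)]
      congr 3
      exact congrArg r.2.2 (Fin.ext e1)
    have h3 : ∀ (i : ℕ) (hi : i < k), dig (a + q + 4) (TT M eS eY) (bs + 3 + 2 * i) =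
        dirN (r.2.2 ⟨i, hi⟩).2 := by
      intro i hi
      have := hT (3 + 2 * i) (by omega)
      rw [← add_assoc] at this
      rw [this]
      show ent M eS eY r _ = _
      unfold ent
      have e1 : (3 + 2 * i - 2) / 2 = i := by omega
      rw [if_neg (by omega), if_neg (by omega), dif_pos (by omega), if_neg (by omega)]
      congr 2
      exact congrArg r.2.2 (Fin.ext e1)
    have hc2 : InR o ({ state := r.1
                        inp := inputMove w r.2.1 c.inp
                        tape := fun i => Function.update (c.tape i) (c.head i) (r.2.2 i).1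
                        head := fun i => c.head i + (r.2.2 i).2.toInt } : M.Cfg) := by
      have := hc'
      unfold TM.next at this
      rw [hr] at this
      exact this
    show ndV k (a + q + 4) (TT M eS eY) o β (num w) (tab β Λ (encC M eS eY o c)) bs idx =
      encC M eS eY o { state := r.1
                       inp := inputMove w r.2.1 c.inp
                       tape := fun i => Function.update (c.tape i) (c.head i) (r.2.2 i).1
                       head := fun i => c.head i + (r.2.2 i).2.toInt } idx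
    unfold ndV
    rw [h0, ifz_ne (Nat.succ_ne_zero _)]
    by_cases c0 : idx = 0
    · subst c0
      rw [ifz_zero]
      rfl
    rw [ifz_ne c0]
    by_cases c1 : idx = 1
    · subst c1
      rw [ifz_zero, h1, hR 1 (by omega), log_num]
      show _ = inputMove w r.2.1 c.inp
      rw [inputMove_eq]
      rfl
    rw [ifz_ne (by omega)]
    by_cases c2 : idx < 2 + k
    · rw [lt01, if_pos c2, ifz_ne one_ne_zero, hR idx hidx, h3 (idx - 2) (by omega)]
      unfold encC
      rw [if_neg c0, if_neg c1, if_pos c2, if_neg c0, if_neg c1, if_pos c2]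
      unfold headN
      rw [dif_pos (by omega), dif_pos (by omega)]
      have e1 := abs_le.1 (hc ⟨idx - 2, by omega⟩)
      have e2 := abs_le.1 (hc2 ⟨idx - 2, by omega⟩)
      simp only at e2 ⊢
      generalize (r.2.2 ⟨idx - 2, by omega⟩).2 = d at *
      generalize c.head ⟨idx - 2, by omega⟩ = hd at *
      cases d <;> simp only [dirN, Dir.toInt] at * <;> omega
    rw [lt01, if_neg c2, ifz_zero]
    by_cases c3 : idx < 2 + k + k * (2 * o + 1)
    · rw [lt01, if_pos c3, ifz_ne one_ne_zero]
      have hpos : (idx - (2 + k)) % (2 * o + 1) < 2 * o + 1 := Nat.mod_lt _ (by omega)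
      have hi : (idx - (2 + k)) / (2 * o + 1) < k := by
        rw [Nat.div_lt_iff_lt_mul (by omega)]
        omega
      generalize hiD : (idx - (2 + k)) / (2 * o + 1) = i at *
      generalize hpD : (idx - (2 + k)) % (2 * o + 1) = pos at *
      have e3 : dig β (tab β Λ (encC M eS eY o c)) (2 + i) = headN M o c i := by
        rw [hR (2 + i) (by omega)]
        unfold encC
        rw [if_neg (by omega), if_neg (by omega), if_pos (by omega)]
        congr 1
        omega
      rw [e3, h2 i hi, hR idx hidx]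
      have e4 : ∀ c : M.Cfg, encC M eS eY o c idx = symN M eY o c i pos := by
        intro c
        unfold encC
        rw [if_neg c0, if_neg c1, if_neg c2, if_pos c3, hiD, hpD]
      rw [e4, e4]
      have e5 := abs_le.1 (hc ⟨i, hi⟩)
      have e6 : (pos = headN M o c i) ↔ ((pos : ℤ) - o = c.head ⟨i, hi⟩) := by
        unfold headN
        rw [dif_pos hi]
        omega
      unfold symN
      rw [dif_pos hi, dif_pos hi]
      by_cases h7 : pos = headN M o c i
      · rw [eq01_of h7, ifz_ne one_ne_zero, e6.1 h7]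
        show _ = (eY (Function.update (c.tape ⟨i, hi⟩) (c.head ⟨i, hi⟩) (r.2.2 ⟨i, hi⟩).1
          (c.head ⟨i, hi⟩)) : ℕ)
        rw [Function.update_self]
      · rw [eq01_ne h7, ifz_zero]
        show _ = (eY (Function.update (c.tape ⟨i, hi⟩) (c.head ⟨i, hi⟩) (r.2.2 ⟨i, hi⟩).1
          ((pos : ℤ) - o)) : ℕ)
        rw [Function.update_of_ne (fun h => h7 (e6.2 h))]
    · rw [lt01, if_neg c3, ifz_zero]
      unfold encC
      rw [if_neg c0, if_neg c1, if_neg c2, if_neg c3]

theorem initV_eq {o Λ β : ℕ} {w : List Bool} (hβ : a + q + 2 * o + w.length + 3 ≤ β) :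
    initV k (eS M.start) (eY M.blank) o Λ β = tab β Λ (encC M eS eY o (M.run w 0)) := by
  unfold initV
  have hR : InR o (M.run w 0) := fun i => by
    show |(0 : ℤ)| ≤ _
    simp
  have hlt := encC_lt (eS := eS) (eY := eY) hR (w := w) (Nat.zero_le _) hβ
  refine tab_congr fun idx _ => ?_
  rw [← Nat.mod_eq_of_lt (hlt idx)]
  congr 1
  unfold encC
  by_cases c0 : idx = 0
  · subst c0
    rfl
  rw [ifz_ne c0, if_neg c0]
  by_cases c1 : idx = 1
  · subst c1
    rfl
  rw [ifz_ne (by omega), if_neg c1]
  by_cases c2 : idx < 2 + k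
  · rw [lt01, if_pos c2, ifz_ne one_ne_zero, if_pos c2]
    unfold headN
    rw [dif_pos (by omega)]
    show o = ((0 : ℤ) + o).toNat
    omega
  rw [lt01, if_neg c2, ifz_zero, if_neg c2]
  by_cases c3 : idx < 2 + k + k * (2 * o + 1)
  · rw [lt01, if_pos c3, ifz_ne one_ne_zero, if_pos c3]
    have hi : (idx - (2 + k)) / (2 * o + 1) < k := by
      rw [Nat.div_lt_iff_lt_mul (by omega)]
      omega
    unfold symN
    rw [dif_pos hi]
    rfl
  · rw [lt01, if_neg c3, ifz_zero, if_neg c3]

theorem nrec_eq {o Λ β : ℕ} {w : List Bool} (hR : ∀ t, InR o (M.run w t))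
    (hβ : a + q + 2 * o + w.length + 3 ≤ β) (hq : q ^ k ≤ β)
    (hΛ : 2 + k + k * (2 * o + 1) ≤ Λ) (t : ℕ) :
    nrec (initV k (eS M.start) (eY M.blank) o Λ β) (fun _ R => stepV k q (q ^ k) (a + q + 4)
      (TT M eS eY) o Λ β (num w) R) t = tab β Λ (encC M eS eY o (M.run w t)) ∧
      (M.run w t).inp ≤ w.length + 1 := by
  induction t with
  | zero => exact ⟨initV_eq hβ, Nat.zero_le _⟩
  | succ t ih =>
    rw [nrec_succ, ih.1]
    refine ⟨stepV_eq (hR t) (hR (t + 1)) ih.2 hβ hq hΛ, ?_⟩
    show ((M.next w (M.run w t)).getD (M.run w t)).inp ≤ _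
    unfold TM.next
    rcases M.step (M.run w t).state (inputSym w (M.run w t).inp)
      (fun i => (M.run w t).tape i ((M.run w t).head i)) with _ | r
    · exact ih.2
    · exact inputMove_le _ _ ih.2

end

/-- Pigeonhole: an iteration with fewer than `B` values meets `P` within `B` steps. -/
theorem iterate_find {B : ℕ} {g : ℕ → ℕ} {R : ℕ → ℕ} (hg : ∀ t, R (t + 1) = g (R t))
    (hB : ∀ t, R t < B) {P : ℕ → Prop} (h : ∃ t, P (R t)) : ∃ t < B, P (R t) := by
  classical
  have hadd : ∀ i j s, R i = R j → R (i + s) = R (j + s) := by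
    intro i j s hij
    induction s with
    | zero => exact hij
    | succ s ih => rw [← add_assoc, ← add_assoc, hg, hg, ih]
  refine ⟨Nat.find h, ?_, Nat.find_spec h⟩
  by_contra hlt
  push Not at hlt
  have hinj : ∀ i j, i ≤ Nat.find h → j ≤ Nat.find h → i < j → R i ≠ R j := by
    intro i j _ hj hij he
    have h1 := hadd i j (Nat.find h - j) he
    have h2 : j + (Nat.find h - j) = Nat.find h := by omega
    rw [h2] at h1
    refine Nat.find_min h (m := i + (Nat.find h - j)) (by omega) ?_
    rw [h1]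
    exact Nat.find_spec h
  have hcard : (range (B + 1)).card ≤ (range B).card := by
    refine Finset.card_le_card_of_injOn (fun t => R t) ?_ ?_
    · intro t _
      exact mem_range.2 (hB t)
    · intro i hi j hj he
      have hi' := mem_range.1 (Finset.mem_coe.1 hi)
      have hj' := mem_range.1 (Finset.mem_coe.1 hj)
      by_contra hne
      rcases Nat.lt_or_gt_of_ne hne with h1 | h1
      · exact hinj i j (by omega) (by omega) h1 he
      · exact hinj j i (by omega) (by omega) h1 he.symm
  rw [card_range, card_range] at hcard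
  omega

/-- **The universal simulation.** -/
theorem runV_spec {L : Set (List Bool)} (hL : DLINSPACE L) :
    ∃ k q qk st b0 B0 T acc c : ℕ, ∀ (w : List Bool) (o Λ β : ℕ),
      c * (w.length + 1) ≤ o → 2 + k + k * (2 * o + 1) ≤ Λ → c + 2 * o + w.length + 3 ≤ β →
      (runV k q qk st b0 B0 T acc o Λ β (num w) = 1 ↔ w ∈ L) := by
  classical
  obtain ⟨k, M, c, hM⟩ := hL
  have := M.finState
  have := M.finSym
  obtain ⟨a, ⟨eS⟩⟩ := Finite.exists_equiv_fin M.State
  obtain ⟨q, ⟨eY⟩⟩ := Finite.exists_equiv_fin M.Sym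
  refine ⟨k, q, q ^ k, eS M.start, eY M.blank, a + q + 4, TT M eS eY,
    tab 2 a (fun i => if decS M eS i ∈ M.accept then 1 else 0), c + a + q + q ^ k, ?_⟩
  intro w o Λ β ho hΛ hβ
  obtain ⟨⟨t, ht, hacc⟩, hspace⟩ := hM w
  have hR : ∀ t, InR o (M.run w t) := by
    intro t i
    refine (hspace t i).trans ?_
    have h1 : c * (w.length + 1) ≤ (c + a + q + q ^ k) * (w.length + 1) :=
      Nat.mul_le_mul_right _ (by omega)
    exact_mod_cast h1.trans ho
  have hβ1 : a + q + 2 * o + w.length + 3 ≤ β := by omega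
  have hq1 : q ^ k ≤ β := by omega
  have hrec := fun t => nrec_eq (eS := eS) (eY := eY) hR hβ1 hq1 hΛ t
  unfold runV
  set R : ℕ → ℕ := fun t => nrec (initV k (eS M.start) (eY M.blank) o Λ β)
    (fun _ R => stepV k q (q ^ k) (a + q + 4) (TT M eS eY) o Λ β (num w) R) t with hRdef
  have hRt : ∀ t, R t = tab β Λ (encC M eS eY o (M.run w t)) := fun t => (hrec t).1
  have hlt : ∀ t idx, encC M eS eY o (M.run w t) idx < β := fun t idx =>
    encC_lt (hR t) (hrec t).2 hβ1 idx
  have hRlt : ∀ t, R t < β ^ Λ := fun t => by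
    rw [hRt]
    exact tab_lt fun _ _ => hlt _ _
  -- halting is visible in the numbers
  have hhalt : ∀ t, (M.next w (M.run w t) = none ↔
      dig (a + q + 4) (TT M eS eY) (bsV k q (q ^ k) o β (num w) (R t)) = 0) := by
    intro t
    rw [hRt, bsV_eq (hR t) (hrec t).2 hβ1 hq1 hΛ]
    have h1 := dig_TT M eS eY (f := 0) (eS (M.run w t).state).2
      (codeO_lt (inputSym w (M.run w t).inp))
      (tab_lt (q := q) (m := k)
        (d := fun i => symN M eY o (M.run w t) i (headN M o (M.run w t) i))
        (fun i _ => symN_lt (eY := eY) _ _)) (by omega)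
    rw [add_zero] at h1
    rw [h1, tbl_eq (hR t)]
    unfold TM.next
    rcases M.step (M.run w t).state (inputSym w (M.run w t).inp)
      (fun i => (M.run w t).tape i ((M.run w t).head i)) with _ | r
    · simp
    · simp [ent]
  obtain ⟨t0, ht0, hP⟩ := iterate_find (R := R)
    (g := fun R => stepV k q (q ^ k) (a + q + 4) (TT M eS eY) o Λ β (num w) R)
    (fun t => rfl) hRlt (P := fun x => dig (a + q + 4) (TT M eS eY)
      (bsV k q (q ^ k) o β (num w) x) = 0) ⟨t, (hhalt t).1 ht⟩
  have hh0 : M.next w (M.run w t0) = none := (hhalt t0).2 hP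
  have hstay : ∀ t1, M.next w (M.run w t1) = none → ∀ s, M.run w (t1 + s) = M.run w t1 := by
    intro t1 h1 s
    induction s with
    | zero => rfl
    | succ s ih =>
      show (M.next w (M.run w (t1 + s))).getD (M.run w (t1 + s)) = _
      rw [ih, h1]
      rfl
  have hrun : M.run w (β ^ Λ) = M.run w t := by
    have h1 := hstay t0 hh0 (β ^ Λ - t0)
    have h2 : t0 + (β ^ Λ - t0) = β ^ Λ := by omega
    rw [h2] at h1
    rw [h1]
    rcases le_total t0 t with h | h
    · have := hstay t0 hh0 (t - t0)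
      rw [Nat.add_sub_cancel' h] at this
      exact this.symm
    · have := hstay t ht (t0 - t)
      rw [Nat.add_sub_cancel' h] at this
      exact this
  have hfin : dig β (R (β ^ Λ)) 0 = eS (M.run w t).state := by
    rw [hRt, dig_tab (fun _ _ => hlt _ _) (by omega), hrun]
    rfl
  have hacc2 : dig 2 (tab 2 a (fun i => if decS M eS i ∈ M.accept then 1 else 0))
      (eS (M.run w t).state) = if (M.run w t).state ∈ M.accept then 1 else 0 := by
    rw [dig_tab (fun i _ => by split_ifs <;> norm_num) (eS (M.run w t).state).2, decS_eS]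
  show dig 2 _ (dig β (R (β ^ Λ)) 0) = 1 ↔ _
  rw [hfin, hacc2, hacc]
  split_ifs with h <;> simp [h]

end Pool.Agent.Helper78.Mpc
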