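import Pool.Agent.Helper78.Mpc.Defs
import Pool.Agent.Helper78.Mpc.UnivCorrect

/-!
# Words as numbers
-/

namespace Pool.Agent.Helper78.Mpc

open Pool.Agent.Helper65.LinSpace Finset

variable {α : Type} [Ctx α]

/-! ### Concatenation -/

theorem num_append (w v : List Bool) : num (w ++ v) + 2 ^ w.length = num w + 2 ^ w.length * num v := by
  induction w with
  | nil =>
    simp only [List.nil_append, List.length_nil, pow_zero, num]
    omega
  | cons b w ih =>
    show b.toNat + 2 * num (w ++ v) + 2 ^ (w.length + 1) =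
      b.toNat + 2 * num w + 2 ^ (w.length + 1) * num v
    rw [pow_succ]
    have : 2 ^ w.length * 2 * num v = 2 * (2 ^ w.length * num v) := by ring
    omega

/-- The number of the concatenation; `0` is the number of no word. -/
def catN (a b : ℕ) : ℕ := ifz a 0 (ifz b 0 (a - 2 ^ Nat.log 2 a + 2 ^ Nat.log 2 a * b))

theorem catN_num (w v : List Bool) : catN (num w) (num v) = num (w ++ v) := by
  have h1 := num_append w v
  have h2 := num_pos w
  have h3 := num_pos v
  have h4 : 2 ^ w.length ≤ num w := by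
    have := Nat.pow_log_le_self 2 h2.ne'
    rwa [log_num] at this
  unfold catN
  rw [ifz_ne h2.ne', ifz_ne h3.ne', log_num]
  omega

theorem catN_eq_zero {a b : ℕ} (h : catN a b ≠ 0) : a ≠ 0 ∧ b ≠ 0 := by
  unfold catN at h
  constructor
  · rintro rfl
    exact h (ifz_zero _ _)
  · rintro rfl
    by_cases ha : a = 0
    · rw [ha, ifz_zero] at h
      exact h rfl
    · rw [ifz_ne ha, ifz_zero] at h
      exact h rfl

@[fun_prop]
theorem LS.pow_log {f : α → ℕ} (hf : LS f) : LS (fun a => 2 ^ Nat.log 2 (f a)) := by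
  refine LS.pow_of_le (f := fun _ => 2) (g := fun a => Nat.log 2 (f a)) (C := fun a => f a + 1)
    (by fun_prop) (by fun_prop) (by fun_prop) fun a => ?_
  rcases Nat.eq_zero_or_pos (f a) with h | h
  · rw [h]
    simp
  · exact (Nat.pow_log_le_self 2 h.ne').trans (Nat.le_succ _)

@[fun_prop]
theorem LS.catN {f g : α → ℕ} (hf : LS f) (hg : LS g) : LS (fun a => catN (f a) (g a)) := by
  unfold Mpc.catN
  fun_prop

/-! ### The self-delimiting code -/

/-- The number of the self-delimiting code. -/
def sdN (a : ℕ) : ℕ :=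
  ifz a 0 (tab 2 (2 * Nat.log 2 a + 1) (fun t => ifz (t % 2) (lt01 (t / 2) (Nat.log 2 a))
    (dig 2 a (t / 2))) + 2 ^ (2 * Nat.log 2 a + 1))

theorem sdN_num (w : List Bool) : sdN (num w) = num (sd w) := by
  unfold sdN
  rw [ifz_ne (num_pos w).ne', log_num]
  induction w with
  | nil =>
    show tab 2 1 _ + 2 ^ 1 = false.toNat + 2 * 1
    rw [tab_succ', tab_zero]
    simp [ifz, lt01]
  | cons b w ih =>
    show _ = true.toNat + 2 * (b.toNat + 2 * num (sd w))
    rw [← ih]
    have e1 : 2 * (b :: w).length + 1 = (2 * w.length + 1) + 1 + 1 := by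
      simp only [List.length_cons]
      ring
    rw [e1, tab_succ', tab_succ']
    have e2 : (fun i => (fun i => ifz ((i + 1) % 2) (lt01 ((i + 1) / 2) (b :: w).length)
        (dig 2 (num (b :: w)) ((i + 1) / 2))) (i + 1)) =
        fun t => ifz (t % 2) (lt01 (t / 2) w.length) (dig 2 (num w) (t / 2)) := by
      funext t
      have h1 : (t + 1 + 1) % 2 = t % 2 := by omega
      have h2 : (t + 1 + 1) / 2 = t / 2 + 1 := by omega
      simp only [h1, h2, List.length_cons]
      have h3 : num (b :: w) = b.toNat + 2 * num w := rfl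
      have h4 : (b.toNat + 2 * num w) / 2 = num w := by
        have := toNat_le_one b
        omega
      rw [dig_succ, h3, h4]
      congr 1
      simp only [lt01]
      congr 1
      simp
    rw [e2]
    have e3 : ifz (0 % 2) (lt01 (0 / 2) (b :: w).length) (dig 2 (num (b :: w)) (0 / 2)) = 1 := by
      simp [ifz, lt01]
    have e4 : ifz ((0 + 1) % 2) (lt01 ((0 + 1) / 2) (b :: w).length)
        (dig 2 (num (b :: w)) ((0 + 1) / 2)) = b.toNat := by
      have h3 : num (b :: w) = b.toNat + 2 * num w := rfl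
      have := toNat_le_one b
      show ifz 1 _ _ = _
      rw [ifz_ne one_ne_zero]
      show dig 2 (num (b :: w)) 0 = _
      rw [dig_zero, h3]
      omega
    rw [e3, e4]
    simp only [Bool.toNat_true]
    ring

theorem length_sd (w : List Bool) : (sd w).length = 2 * w.length + 1 := by
  induction w with
  | nil => rfl
  | cons b w ih =>
    show (sd w).length + 1 + 1 = _
    rw [ih, List.length_cons]
    ring

@[fun_prop]
theorem LS.sdN {f : α → ℕ} (hf : LS f) : LS (fun a => sdN (f a)) := by
  unfold Mpc.sdN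
  have hb : ∀ x : ℕ, 2 ^ (2 * Nat.log 2 x + 1) ≤ 2 * (x + 1) * (x + 1) := by
    intro x
    have h : 2 ^ Nat.log 2 x ≤ x + 1 := by
      rcases Nat.eq_zero_or_pos x with h | h
      · rw [h]
        simp
      · exact (Nat.pow_log_le_self 2 h.ne').trans (Nat.le_succ _)
    have e : 2 ^ (2 * Nat.log 2 x + 1) = 2 * (2 ^ Nat.log 2 x * 2 ^ Nat.log 2 x) := by ring
    rw [e, mul_assoc]
    exact Nat.mul_le_mul_left _ (Nat.mul_le_mul h h)
  refine LS.ifz hf (by fun_prop) (LS.add ?_ ?_)
  · refine LS.tab (q := fun _ => 2) (m := fun a => 2 * Nat.log 2 (f a) + 1)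
      (C := fun a => 2 * (f a + 1) * (f a + 1))
      (d := fun a t => ifz (t % 2) (lt01 (t / 2) (Nat.log 2 (f a))) (dig 2 (f a) (t / 2)))
      (by fun_prop) (by fun_prop) (by fun_prop) (by fun_prop) ?_ fun a => hb _
    intro a i _
    have h1 := dig_lt (q := 2) (by norm_num) (f a) (i / 2)
    simp only [ifz, lt01]
    split_ifs <;> omega
  · exact LS.pow_of_le (f := fun _ => 2) (by fun_prop) (by fun_prop)
      (C := fun a => 2 * (f a + 1) * (f a + 1)) (by fun_prop) fun a => hb _

/-! ### Binary representations -/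

/-- The number of the binary representation. -/
def bitsN (i : ℕ) : ℕ := ifz i 1 (i + 2 * 2 ^ Nat.log 2 i)

theorem bitsN_eq (i : ℕ) : bitsN i = num i.bits := by
  induction i using Nat.binaryRec' with
  | zero => simp [bitsN, ifz, num]
  | bit b n h ih =>
    rw [Nat.bits_append_bit _ _ h]
    show _ = b.toNat + 2 * num n.bits
    rw [← ih]
    have h1 : Nat.bit b n = 2 * n + b.toNat := by
      rw [Nat.bit_val]
    have hb := toNat_le_one b
    unfold bitsN
    by_cases hn : n = 0
    · subst hn
      have hb1 : b = true := h rfl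
      subst hb1
      simp [ifz, Nat.bit]
    · rw [ifz_ne hn, ifz_ne (by omega), h1]
      have h2 : Nat.log 2 (2 * n + b.toNat) = Nat.log 2 n + 1 := by
        rw [Nat.log_of_one_lt_of_le (by norm_num) (by omega)]
        have : (2 * n + b.toNat) / 2 = n := by omega
        rw [this]
      rw [h2, pow_succ]
      ring

theorem length_bits {i k : ℕ} (h : i < 2 ^ k) : i.bits.length ≤ k := by
  rw [Nat.size_eq_bits_len]
  exact Nat.size_le.2 h

@[fun_prop]
theorem LS.bitsN {f : α → ℕ} (hf : LS f) : LS (fun a => bitsN (f a)) := by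
  unfold Mpc.bitsN
  fun_prop

/-! ### Queries -/

/-- The number of the word `1^i 0 w`, powers being cut off at `B`. -/
def queryN (B i a : ℕ) : ℕ := capPow 2 (i + 1) B * a + (capPow 2 i B - 1)

theorem queryN_num {B i : ℕ} (hB : 2 ^ (i + 1) ≤ B) (w : List Bool) :
    queryN B i (num w) = num (List.replicate i true ++ false :: w) := by
  have h0 : 2 ^ i ≤ 2 ^ (i + 1) := Nat.pow_le_pow_right (by norm_num) (by omega)
  have h1 : capPow 2 (i + 1) B = 2 ^ (i + 1) := by
    rw [capPow, min_eq_left (by omega)]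
  have h2 : capPow 2 i B = 2 ^ i := by
    rw [capPow, min_eq_left (by omega)]
  unfold queryN
  rw [h1, h2]
  clear h0 h1 h2 hB
  induction i with
  | zero =>
    show 2 * num w + 0 = false.toNat + 2 * num w
    simp
  | succ i ih =>
    rw [List.replicate_succ]
    show _ = true.toNat + 2 * num (List.replicate i true ++ false :: w)
    rw [← ih]
    have : 0 < 2 ^ i := by positivity
    have e1 : 2 ^ (i + 1 + 1) * num w = 2 * (2 ^ (i + 1) * num w) := by ring
    have e2 : 2 ^ (i + 1) = 2 * 2 ^ i := by ring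
    rw [e1, e2]
    simp only [Bool.toNat_true]
    omega

@[fun_prop]
theorem LS.queryN {B i f : α → ℕ} (hB : LS B) (hi : LS i) (hf : LS f) :
    LS (fun a => queryN (B a) (i a) (f a)) := by
  unfold Mpc.queryN
  fun_prop

theorem num_eq_tab (w : List Bool) (d : ℕ → ℕ)
    (hd : ∀ (i : ℕ) (h : i < w.length), d i = (w[i]).toNat) :
    num w = tab 2 w.length d + 2 ^ w.length := by
  induction w generalizing d with
  | nil => simp [tab_zero, num]
  | cons b w ih =>
    show b.toNat + 2 * num w = _
    rw [ih (fun i => d (i + 1)) (fun i h => by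
      have := hd (i + 1) (by simpa using h)
      simpa using this)]
    rw [List.length_cons, tab_succ', hd 0 (by simp)]
    simp only [List.getElem_cons_zero]
    ring

/-! ### Truncation -/

/-- Replace numbers of words longer than `S` by `0`. -/
def capN (S v : ℕ) : ℕ := ifz (lt01 S (Nat.log 2 v)) v 0

theorem capN_lt (S v : ℕ) : capN S v < 2 ^ (S + 1) := by
  unfold capN
  by_cases h : S < Nat.log 2 v
  · rw [lt01, if_pos h, ifz_ne one_ne_zero]
    positivity
  · rw [lt01, if_neg h, ifz_zero]
    have := Nat.lt_pow_succ_log_self (b := 2) (by norm_num) v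
    exact lt_of_lt_of_le this (Nat.pow_le_pow_right (by norm_num) (by omega))

theorem capN_num {S : ℕ} {w : List Bool} (h : w.length ≤ S) : capN S (num w) = num w := by
  unfold capN
  rw [log_num, lt01, if_neg (by omega), ifz_zero]

theorem capN_ne {S v : ℕ} (h : capN S v ≠ 0) : capN S v = v := by
  unfold capN at *
  by_cases h1 : S < Nat.log 2 v
  · rw [lt01, if_pos h1, ifz_ne one_ne_zero] at h
    exact absurd rfl h
  · rw [lt01, if_neg h1, ifz_zero]

@[fun_prop]
theorem LS.capN {S f : α → ℕ} (hS : LS S) (hf : LS f) : LS (fun a => capN (S a) (f a)) := by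
  unfold Mpc.capN
  fun_prop

/-! ### Universal functions -/

/-- The half width of the tapes. -/
def oo (Λ k : ℕ) : ℕ := Λ / (k + 1) / 2 - 1

/-- The universal function. -/
def univ (e Λ β x : ℕ) : ℕ :=
  runV (Nat.unpair e).1 (Nat.unpair (Nat.unpair e).2).1
    (Nat.unpair (Nat.unpair (Nat.unpair e).2).2).1
    (Nat.unpair (Nat.unpair (Nat.unpair (Nat.unpair e).2).2).2).1
    (Nat.unpair (Nat.unpair (Nat.unpair (Nat.unpair (Nat.unpair e).2).2).2).2).1
    (Nat.unpair (Nat.unpair (Nat.unpair (Nat.unpair (Nat.unpair (Nat.unpair e).2).2).2).2).2).1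
    (Nat.unpair (Nat.unpair (Nat.unpair (Nat.unpair (Nat.unpair (Nat.unpair
      (Nat.unpair e).2).2).2).2).2).2).1
    (Nat.unpair (Nat.unpair (Nat.unpair (Nat.unpair (Nat.unpair (Nat.unpair
      (Nat.unpair e).2).2).2).2).2).2).2
    (oo Λ (Nat.unpair e).1) Λ β x

theorem univ_lt (e Λ β x : ℕ) : univ e Λ β x < 2 := dig_lt (by norm_num) _ _

theorem univ_spec {L : Set (List Bool)} (hL : DLINSPACE L) :
    ∃ e c : ℕ, ∀ (w : List Bool) (Λ β : ℕ), c * (w.length + 1) ≤ Λ → c + Λ + w.length ≤ β →
      (univ e Λ β (num w) = 1 ↔ w ∈ L) := by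
  obtain ⟨k, q, qk, st, b0, B0, T, acc, c, h⟩ := runV_spec hL
  refine ⟨Nat.pair k (Nat.pair q (Nat.pair qk (Nat.pair st (Nat.pair b0 (Nat.pair B0
    (Nat.pair T acc)))))), (k + 1) * (2 * c + 4) + 3, fun w Λ β hΛ hβ => ?_⟩
  unfold univ
  simp only [Nat.unpair_pair]
  have h1 : (2 * c + 4) * (w.length + 1) ≤ Λ / (k + 1) := by
    rw [Nat.le_div_iff_mul_le (by omega)]
    refine le_trans ?_ hΛ
    calc (2 * c + 4) * (w.length + 1) * (k + 1) = (k + 1) * (2 * c + 4) * (w.length + 1) := by
          ring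
      _ ≤ _ := Nat.mul_le_mul_right _ (by omega)
  have h2 : (2 * c + 4) * (w.length + 1) = 2 * (c * (w.length + 1)) + 4 * (w.length + 1) := by
    ring
  have h3 : Λ / (k + 1) * (k + 1) ≤ Λ := Nat.div_mul_le_self _ _
  have h5 : Λ / (k + 1) ≤ Λ := Nat.div_le_self _ _
  have h6 : c ≤ (k + 1) * (2 * c + 4) := by nlinarith
  unfold oo
  generalize Λ / (k + 1) = z at *
  refine h w _ _ _ ?_ ?_ ?_
  · omega
  · have h4 : 2 * (z / 2 - 1) + 2 ≤ z := by omega
    have h7 : (2 * (z / 2 - 1) + 2) * (k + 1) ≤ z * (k + 1) := Nat.mul_le_mul_right _ h4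
    generalize z / 2 - 1 = o at *
    nlinarith
  · omega

theorem LS.univ {e Λ β x C : α → ℕ} (he : LS e) (hΛ : LS Λ) (hβ : LS β) (hx : LS x) (hC : LS C)
    (hβ0 : ∀ a, 0 < β a) (hb : ∀ a, β a ^ Λ a ≤ C a) :
    LS (fun a => univ (e a) (Λ a) (β a) (x a)) := by
  unfold Mpc.univ Mpc.oo
  exact LS.runV (by fun_prop) (by fun_prop) (by fun_prop) (by fun_prop) (by fun_prop)
    (by fun_prop) (by fun_prop) (by fun_prop) (by fun_prop) hΛ hβ hx hC hβ0 hb

/-- The number of letters of the value of the function with code `e`, cut off at `S + 1`. -/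
def cntN (e S Λ β B a : ℕ) : ℕ :=
  ∑ i ∈ range (S + 1), lt01 0 (univ (Nat.unpair e).1 Λ β (queryN B i a) +
    univ (Nat.unpair e).2 Λ β (queryN B i a))

/-- The value of the function with code `e`; `0` if it is longer than `S`. -/
def fnN (e S Λ β B a : ℕ) : ℕ :=
  ifz a 0 (ifz (lt01 S (cntN e S Λ β B a))
    (tab 2 (cntN e S Λ β B a) (fun i => univ (Nat.unpair e).2 Λ β (queryN B i a)) +
      2 ^ cntN e S Λ β B a) 0)

theorem cntN_le (e S Λ β B a : ℕ) : cntN e S Λ β B a ≤ S + 1 := by
  unfold cntN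
  refine (sum_le_sum (g := fun _ => 1) fun i _ => ?_).trans (by simp)
  unfold lt01
  split_ifs <;> omega

theorem fnN_spec {f : List Bool → List Bool} (hf : LinComp f) :
    ∃ e c : ℕ, ∀ (w : List Bool) (S Λ β B : ℕ), c * (S + w.length + 2) ≤ Λ →
      c + Λ + S + w.length + 1 ≤ β → 2 ^ (S + 1) ≤ B →
      fnN e S Λ β B (num w) = if (f w).length ≤ S then num (f w) else 0 := by
  obtain ⟨e0, c0, h0⟩ := univ_spec (hf false)
  obtain ⟨e1, c1, h1⟩ := univ_spec (hf true)
  refine ⟨Nat.pair e0 e1, c0 + c1, fun w S Λ β B hΛ hβ hB => ?_⟩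
  have hq : ∀ i ≤ S, queryN B i (num w) = num (List.replicate i true ++ false :: w) := by
    intro i hi
    refine queryN_num ((Nat.pow_le_pow_right (by norm_num) ?_).trans hB) w
    omega
  have hlen : ∀ i, (List.replicate i true ++ false :: w).length = i + w.length + 1 := by
    intro i
    simp only [List.length_append, List.length_replicate, List.length_cons]
    ring
  have hmem : ∀ (i : ℕ) (b : Bool), (List.replicate i true ++ false :: w) ∈
      {u : List Bool | ∃ (i : ℕ) (w : List Bool), u = List.replicate i true ++ false :: w ∧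
        (f w)[i]? = some b} ↔ (f w)[i]? = some b := by
    intro i b
    constructor
    · rintro ⟨i', w', he, h⟩
      have hinj : ∀ (i i' : ℕ), List.replicate i true ++ false :: w =
          List.replicate i' true ++ false :: w' → i = i' ∧ w = w' := by
        intro i
        induction i with
        | zero =>
          intro i' h
          rcases i' with _ | i'
          · simpa using h
          · simp [List.replicate_succ] at h
        | succ i ih =>
          intro i' h
          rcases i' with _ | i'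
          · simp [List.replicate_succ] at h
          · simp only [List.replicate_succ, List.cons_append, List.cons.injEq, true_and] at h
            obtain ⟨h1, h2⟩ := ih i' h
            exact ⟨by omega, h2⟩
      obtain ⟨h2, h3⟩ := hinj i i' he
      subst h2
      subst h3
      exact h
    · intro h
      exact ⟨i, w, rfl, h⟩
  have hcond : ∀ i ≤ S, c0 * ((List.replicate i true ++ false :: w).length + 1) ≤ Λ ∧
      c1 * ((List.replicate i true ++ false :: w).length + 1) ≤ Λ := by
    intro i hi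
    rw [hlen]
    have e1 : (c0 + c1) * (S + w.length + 2) = c0 * (S + w.length + 2) +
      c1 * (S + w.length + 2) := by ring
    have e2 : c0 * (i + w.length + 1 + 1) ≤ c0 * (S + w.length + 2) :=
      Nat.mul_le_mul_left _ (by omega)
    have e3 : c1 * (i + w.length + 1 + 1) ≤ c1 * (S + w.length + 2) :=
      Nat.mul_le_mul_left _ (by omega)
    omega
  have hu0 : ∀ i ≤ S, univ e0 Λ β (queryN B i (num w)) = 1 ↔ (f w)[i]? = some false := by
    intro i hi
    rw [hq i hi, h0 _ Λ β (hcond i hi).1 (by rw [hlen]; omega)]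
    exact hmem i false
  have hu1 : ∀ i ≤ S, univ e1 Λ β (queryN B i (num w)) = 1 ↔ (f w)[i]? = some true := by
    intro i hi
    rw [hq i hi, h1 _ Λ β (hcond i hi).2 (by rw [hlen]; omega)]
    exact hmem i true
  have hcnt : cntN (Nat.pair e0 e1) S Λ β B (num w) = min (f w).length (S + 1) := by
    unfold cntN
    simp only [Nat.unpair_pair]
    refine sum_lt_ind (min_le_right _ _) fun i hi => ?_
    have a0 := hu0 i (by omega)
    have a1 := hu1 i (by omega)
    have b0 := univ_lt e0 Λ β (queryN B i (num w))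
    have b1 := univ_lt e1 Λ β (queryN B i (num w))
    by_cases h : i < (f w).length
    · rw [if_pos (by omega), lt01, if_pos]
      rw [List.getElem?_eq_getElem h] at a0 a1
      rcases hb : (f w)[i] with _ | _
      · rw [hb] at a0
        have := a0.2 rfl
        omega
      · rw [hb] at a1
        have := a1.2 rfl
        omega
    · rw [if_neg (by omega), lt01, if_neg]
      rw [List.getElem?_eq_none (by omega)] at a0 a1
      have c0 : univ e0 Λ β (queryN B i (num w)) ≠ 1 := fun h => by simpa using a0.1 h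
      have c1 : univ e1 Λ β (queryN B i (num w)) ≠ 1 := fun h => by simpa using a1.1 h
      omega
  unfold fnN
  rw [ifz_ne (num_pos w).ne', hcnt]
  simp only [Nat.unpair_pair]
  by_cases h : (f w).length ≤ S
  · rw [if_pos h, lt01, if_neg (by omega), ifz_zero, min_eq_left (by omega)]
    refine (num_eq_tab (f w) _ fun i hi => ?_).symm
    have a1 := hu1 i (by omega)
    have b1 := univ_lt e1 Λ β (queryN B i (num w))
    rw [List.getElem?_eq_getElem hi] at a1
    rcases hb : (f w)[i] with _ | _
    · rw [hb] at a1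
      have c1 : univ e1 Λ β (queryN B i (num w)) ≠ 1 := fun h => by simpa using a1.1 h
      simp only [Bool.toNat_false]
      omega
    · rw [hb] at a1
      simp only [Bool.toNat_true]
      exact a1.2 rfl
  · rw [if_neg h, lt01, if_pos (by omega), ifz_ne one_ne_zero]

theorem LS.fnN {e S Λ β B x C : α → ℕ} (he : LS e) (hS : LS S) (hΛ : LS Λ) (hβ : LS β)
    (hB : LS B) (hx : LS x) (hC : LS C) (hβ0 : ∀ a, 0 < β a) (hb : ∀ a, β a ^ Λ a ≤ C a)
    (hb2 : ∀ a, 2 ^ (S a + 1) ≤ C a) :
    LS (fun a => fnN (e a) (S a) (Λ a) (β a) (B a) (x a)) := by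
  have hq : LS (fun z : α × ℕ => Mpc.queryN (B z.1) z.2 (x z.1)) := by fun_prop
  have h0 : LS (fun z : α × ℕ => Mpc.univ (Nat.unpair (e z.1)).1 (Λ z.1) (β z.1)
      (Mpc.queryN (B z.1) z.2 (x z.1))) :=
    LS.univ (by fun_prop) (by fun_prop) (by fun_prop) hq (C := fun z => C z.1) (by fun_prop)
      (fun z => hβ0 z.1) (fun z => hb z.1)
  have h1 : LS (fun z : α × ℕ => Mpc.univ (Nat.unpair (e z.1)).2 (Λ z.1) (β z.1)
      (Mpc.queryN (B z.1) z.2 (x z.1))) :=
    LS.univ (by fun_prop) (by fun_prop) (by fun_prop) hq (C := fun z => C z.1) (by fun_prop)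
      (fun z => hβ0 z.1) (fun z => hb z.1)
  have hc : LS (fun a => cntN (e a) (S a) (Λ a) (β a) (B a) (x a)) := by
    unfold cntN
    refine LS.sum_le (N := fun a => S a + 1) (B := fun _ => 1) (f := fun a i => lt01 0
      (Mpc.univ (Nat.unpair (e a)).1 (Λ a) (β a) (Mpc.queryN (B a) i (x a)) +
        Mpc.univ (Nat.unpair (e a)).2 (Λ a) (β a) (Mpc.queryN (B a) i (x a)))) ?_ (by fun_prop)
      (by fun_prop) ?_
    · exact LS.lt01 (LS.const 0) (LS.add h0 h1)
    · intro a i _
      unfold lt01
      split_ifs <;> omega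
  have hb3 : ∀ a, 2 ^ cntN (e a) (S a) (Λ a) (β a) (B a) (x a) ≤ C a := fun a =>
    (Nat.pow_le_pow_right (by norm_num) (cntN_le _ _ _ _ _ _)).trans (hb2 a)
  unfold Mpc.fnN
  refine LS.ifz hx (LS.const 0) (LS.ifz (LS.lt01 hS hc) (LS.add ?_ ?_) (LS.const 0))
  · exact LS.tab (q := fun _ => 2) (m := fun a => cntN (e a) (S a) (Λ a) (β a) (B a) (x a))
      (C := C) (d := fun a i => Mpc.univ (Nat.unpair (e a)).2 (Λ a) (β a) (Mpc.queryN (B a) i (x a)))
      h1 (by fun_prop) hc hC (fun a i _ => univ_lt _ _ _ _) hb3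
  · exact LS.pow_of_le (f := fun _ => 2) (by fun_prop) hc hC hb3

end Pool.Agent.Helper78.Mpc
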