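import Pool.Agent.Helper65.LinSpace.TreeLS

/-!
# Tree evaluation with operations which depend on the node

This is a variant of the tree evaluation procedure of `Helper65/LinSpace` (Cook and Mertz).
-/

namespace Pool.Agent.Helper78.Mpc

open Pool.Agent.Helper65.LinSpace Finset

section

variable (p D L : ℕ) (F : ℕ → ℕ → ℕ) (leaf : ℕ → ℕ) (ch : ℕ → ℕ → ℕ)

/-- The value of the node `u` at height `j`; the children of `u` are `ch u i`, `i < D`. -/
def gval : ℕ → ℕ → ℕ
  | 0, u => leaf u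
  | j + 1, u => F u (tab (2 ^ L) D fun i => gval j (ch u i))

variable {D L F leaf ch} in
theorem gval_lt (hF : ∀ u a, F u a < 2 ^ L) (hleaf : ∀ u, leaf u < 2 ^ L) (j u : ℕ) :
    gval D L F leaf ch j u < 2 ^ L := by
  cases j with
  | zero => exact hleaf u
  | succ j => exact hF _ _

/-- The elementary operation at the moment `τ` of the evaluation of the node `u` of height `j`, with
target block `t` and sign `σ`. -/
noncomputable def gexec : ℕ → ℕ → ℕ → ZMod p → ℕ → (ℕ → ZMod p) → (ℕ → ZMod p)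
  | 0, u, t, σ, _, r => addB p L t (leaf u) σ r
  | j + 1, u, t, σ, τ, r =>
    if 1 ≤ τ / MM p D ^ j % (2 * D + 3) ∧ τ / MM p D ^ j % (2 * D + 3) ≤ D then
      gexec j (ch u (τ / MM p D ^ j % (2 * D + 3) - 1))
        ((t + τ / MM p D ^ j % (2 * D + 3)) % (D + 1)) 1 (τ % MM p D ^ j) r
    else if D + 2 ≤ τ / MM p D ^ j % (2 * D + 3) ∧ τ / MM p D ^ j % (2 * D + 3) ≤ 2 * D + 1 then
      gexec j (ch u (τ / MM p D ^ j % (2 * D + 3) - (D + 2)))
        ((t + (τ / MM p D ^ j % (2 * D + 3) - (D + 1))) % (D + 1)) (-1) (τ % MM p D ^ j) r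
    else if τ % MM p D ^ j = 0 then
      if τ / MM p D ^ j % (2 * D + 3) = 0 then
        opScale p L t ((τ / MM p D ^ j / (2 * D + 3) + 1 : ℕ) : ZMod p) r
      else if τ / MM p D ^ j % (2 * D + 3) = D + 1 then opF p D L (F u) t σ r
      else opScale p L t ((τ / MM p D ^ j / (2 * D + 3) + 1 : ℕ) : ZMod p)⁻¹ r
    else r

variable {D L F leaf ch p} in
/-- **Correctness of the tree evaluation.** -/
theorem iter_gexec [Fact p.Prime] (hp : D * L < p - 1) (hF : ∀ u a, F u a < 2 ^ L)
    (hleaf : ∀ u, leaf u < 2 ^ L) :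
    ∀ (j u t : ℕ) (_ : t ≤ D) (σ : ZMod p) (r : ℕ → ZMod p),
      iter (fun τ r => gexec p D L F leaf ch j u t σ τ r) (MM p D ^ j) r =
        addB p L t (gval D L F leaf ch j u) σ r
  | 0, u, t, _, σ, r => rfl
  | j + 1, u, t, ht, σ, r => by
    have ih := iter_gexec hp hF hleaf j
    set v : ℕ → ℕ := fun i => gval D L F leaf ch j (ch u i) with hv_def
    have hv : ∀ i < D, v i < 2 ^ L := fun i _ => gval_lt hF hleaf _ _
    have hp1 : 0 < p - 1 := by omega
    have hMpos : 0 < MM p D ^ j := by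
      have : 0 < MM p D := Nat.mul_pos hp1 (by omega)
      positivity
    -- a block of `M ^ j` moments
    have hdiv : ∀ d i, i < MM p D ^ j → (d * MM p D ^ j + i) / MM p D ^ j = d := fun d i hi =>
      div_eq_block hi
    have hmod : ∀ d i, i < MM p D ^ j → (d * MM p D ^ j + i) % MM p D ^ j = i := fun d i hi =>
      mod_eq_block hi
    have hblock : ∀ d (r : ℕ → ZMod p),
        iter (fun i => (fun τ r => gexec p D L F leaf ch (j + 1) u t σ τ r) (d * MM p D ^ j + i))
          (MM p D ^ j) r =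
        if 1 ≤ d % (2 * D + 3) ∧ d % (2 * D + 3) ≤ D then
          addB p L ((t + d % (2 * D + 3)) % (D + 1)) (v (d % (2 * D + 3) - 1)) 1 r
        else if D + 2 ≤ d % (2 * D + 3) ∧ d % (2 * D + 3) ≤ 2 * D + 1 then
          addB p L ((t + (d % (2 * D + 3) - (D + 1))) % (D + 1)) (v (d % (2 * D + 3) - (D + 2)))
            (-1) r
        else if d % (2 * D + 3) = 0 then opScale p L t ((d / (2 * D + 3) + 1 : ℕ) : ZMod p) r
        else if d % (2 * D + 3) = D + 1 then opF p D L (F u) t σ r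
        else opScale p L t ((d / (2 * D + 3) + 1 : ℕ) : ZMod p)⁻¹ r := by
      intro d r
      split_ifs with h1 h2 h3 h4
      · rw [← ih (ch u (d % (2 * D + 3) - 1)) ((t + d % (2 * D + 3)) % (D + 1))
          (by have := Nat.mod_lt (t + d % (2 * D + 3)) (show D + 1 > 0 by omega); omega) 1 r]
        refine iter_congr (fun i hi r => ?_) r
        simp only [gexec]
        rw [hdiv d i hi, hmod d i hi, if_pos h1]
      · rw [← ih (ch u (d % (2 * D + 3) - (D + 2))) ((t + (d % (2 * D + 3) - (D + 1))) % (D + 1))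
          (by have := Nat.mod_lt (t + (d % (2 * D + 3) - (D + 1))) (show D + 1 > 0 by omega); omega)
          (-1) r]
        refine iter_congr (fun i hi r => ?_) r
        simp only [gexec]
        rw [hdiv d i hi, hmod d i hi, if_neg h1, if_pos h2]
      · rw [← iter_once (opScale p L t ((d / (2 * D + 3) + 1 : ℕ) : ZMod p)) hMpos r]
        refine iter_congr (fun i hi r => ?_) r
        simp only [gexec]
        rw [hdiv d i hi, hmod d i hi, if_neg h1, if_neg h2, if_pos h3]
      · rw [← iter_once (opF p D L (F u) t σ) hMpos r]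
        refine iter_congr (fun i hi r => ?_) r
        simp only [gexec]
        rw [hdiv d i hi, hmod d i hi, if_neg h1, if_neg h2, if_neg h3, if_pos h4]
      · rw [← iter_once (opScale p L t ((d / (2 * D + 3) + 1 : ℕ) : ZMod p)⁻¹) hMpos r]
        refine iter_congr (fun i hi r => ?_) r
        simp only [gexec]
        rw [hdiv d i hi, hmod d i hi, if_neg h1, if_neg h2, if_neg h3, if_neg h4]
    obtain ⟨B, hB⟩ : ∃ B : ℕ → (ℕ → ZMod p) → (ℕ → ZMod p), B = fun d =>
        iter (fun i => (fun τ r => gexec p D L F leaf ch (j + 1) u t σ τ r) (d * MM p D ^ j + i))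
          (MM p D ^ j) := ⟨_, rfl⟩
    have hB' : ∀ d r, B d r = _ := fun d r => (congrFun (congrFun hB d) r).trans (hblock d r)
    rw [pow_succ', iter_mul, ← hB]
    have hMM : iter B (MM p D) r = iter B ((p - 1) * (2 * D + 3)) r := rfl
    rw [hMM, iter_mul]
    -- one round
    have hround : ∀ c < p - 1, ∀ r : ℕ → ZMod p,
        iter (fun i => B (c * (2 * D + 3) + i)) (2 * D + 3) r =
        opScale p L t ((c + 1 : ℕ) : ZMod p)⁻¹ (addAll p D L t v (-1) D
          (opF p D L (F u) t σ (addAll p D L t v 1 D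
            (opScale p L t ((c + 1 : ℕ) : ZMod p) r)))) := by
      intro c _ r
      have hd : ∀ i < 2 * D + 3, (c * (2 * D + 3) + i) / (2 * D + 3) = c := fun i hi =>
        div_eq_block hi
      have hm : ∀ i < 2 * D + 3, (c * (2 * D + 3) + i) % (2 * D + 3) = i := fun i hi =>
        mod_eq_block hi
      have e : iter (fun i => B (c * (2 * D + 3) + i)) (2 * D + 3) r =
          iter (fun i => B (c * (2 * D + 3) + i)) (1 + D + 1 + D + 1) r := by
        congr 1
        omega
      rw [e, iter_add, iter_add, iter_add, iter_add]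
      have e1 : ∀ r, iter (fun i => B (c * (2 * D + 3) + i)) 1 r =
          opScale p L t ((c + 1 : ℕ) : ZMod p) r := by
        intro r
        show B (c * (2 * D + 3) + 0) r = _
        rw [hB', hd 0 (by omega), hm 0 (by omega), if_neg (by omega), if_neg (by omega),
          if_pos rfl]
      have e2 : ∀ r, iter (fun i => B (c * (2 * D + 3) + (1 + i))) D r =
          addAll p D L t v 1 D r := by
        intro r
        rw [← iter_addB ht v 1 r D le_rfl]
        refine iter_congr (fun i hi r => ?_) r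
        rw [hB', hm (1 + i) (by omega), if_pos (by omega)]
        have h1 : 1 + i = i + 1 := by omega
        have h2 : i + 1 - 1 = i := by omega
        rw [h1, h2]
      have e3 : ∀ r, iter (fun i => B (c * (2 * D + 3) + (1 + D + i))) 1 r =
          opF p D L (F u) t σ r := by
        intro r
        show B (c * (2 * D + 3) + (1 + D + 0)) r = _
        rw [hB', hm (1 + D + 0) (by omega), if_neg (by omega), if_neg (by omega),
          if_neg (by omega), if_pos (by omega)]
      have e4 : ∀ r, iter (fun i => B (c * (2 * D + 3) + (1 + D + 1 + i))) D r =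
          addAll p D L t v (-1) D r := by
        intro r
        rw [← iter_addB ht v (-1) r D le_rfl]
        refine iter_congr (fun i hi r => ?_) r
        rw [hB', hm (1 + D + 1 + i) (by omega), if_neg (by omega), if_pos (by omega)]
        have h1 : 1 + D + 1 + i - (D + 1) = i + 1 := by omega
        have h2 : 1 + D + 1 + i - (D + 2) = i := by omega
        rw [h1, h2]
      have e5 : ∀ r, iter (fun i => B (c * (2 * D + 3) + (1 + D + 1 + D + i))) 1 r =
          opScale p L t ((c + 1 : ℕ) : ZMod p)⁻¹ r := by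
        intro r
        show B (c * (2 * D + 3) + (1 + D + 1 + D + 0)) r = _
        rw [hB', hm (1 + D + 1 + D + 0) (by omega), hd (1 + D + 1 + D + 0) (by omega),
          if_neg (by omega), if_neg (by omega), if_neg (by omega), if_neg (by omega)]
      rw [e1, e2, e3, e4, e5]
    rw [iter_congr hround, rounds_eq (F u) ht hv σ r (p - 1) le_rfl]
    funext i
    simp only [addB]
    by_cases h : i / L = t
    · rw [if_pos h, if_pos h, fhat_sum p (by omega), fhat_bits]
      · show r i - σ * -bitZ p (F u (tab (2 ^ L) D v)) (i % L) = _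
        rw [mul_neg, sub_neg_eq_add]
        rfl
      · have := tab_lt hv
        rwa [← pow_mul, mul_comm] at this
    · rw [if_neg h, if_neg h]

end

/-- The new value of the `i`-th digit at the moment `τ`. -/
def gndN (p D L h root : ℕ) (F : ℕ → ℕ → ℕ) (leaf : ℕ → ℕ) (ch : ℕ → ℕ → ℕ) (τ R i : ℕ) : ℕ :=
  ifz (h - stopN (MM p D) D h τ)
    (ifz (eq01 (i / L) (blkN (MM p D) D h τ h)) (dig p R i)
      ((dig p R i + ifz (sgnN (MM p D) D h τ h) (p - 1) 1 *
        dig 2 (leaf (nodeN (MM p D) D h root ch τ h)) (i % L)) % p))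
    (ifz (τ % MM p D ^ (h - 1 - stopN (MM p D) D h τ))
      (ifz (subD (MM p D) D h τ (stopN (MM p D) D h τ))
        (ifz (eq01 (i / L) (blkN (MM p D) D h τ (stopN (MM p D) D h τ)))
          (((τ / MM p D ^ (h - 1 - stopN (MM p D) D h τ) % MM p D / (2 * D + 3) + 1) *
            dig p R i) % p)
          (dig p R i))
        (ifz (eq01 (subD (MM p D) D h τ (stopN (MM p D) D h τ)) (D + 1))
          (ifz (eq01 (i / L) (blkN (MM p D) D h τ (stopN (MM p D) D h τ)))
            ((invN p (τ / MM p D ^ (h - 1 - stopN (MM p D) D h τ) % MM p D / (2 * D + 3) + 1) *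
              dig p R i) % p)
            (dig p R i))
          (ifz (eq01 (i / L) (blkN (MM p D) D h τ (stopN (MM p D) D h τ)))
            (dig p R i)
            ((dig p R i + ifz (sgnN (MM p D) D h τ (stopN (MM p D) D h τ)) 1 (p - 1) *
              fhN p D L (F (nodeN (MM p D) D h root ch τ (stopN (MM p D) D h τ))) R (blkN (MM p D) D h τ (stopN (MM p D) D h τ)) (i % L)) % p))))
      (dig p R i))

/-- One step of the evaluation. -/
def gstepN (p D L h root : ℕ) (F : ℕ → ℕ → ℕ) (leaf : ℕ → ℕ) (ch : ℕ → ℕ → ℕ) (τ R : ℕ) : ℕ :=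
  tab p ((D + 1) * L) (gndN p D L h root F leaf ch τ R)

/-- The value of the root. -/
def gevalN (p D L h root : ℕ) (F : ℕ → ℕ → ℕ) (leaf : ℕ → ℕ) (ch : ℕ → ℕ → ℕ) : ℕ :=
  tab 2 L (fun q => dig p (nrec 0 (gstepN p D L h root F leaf ch) (MM p D ^ h)) q % 2)

section

variable {p D L : ℕ} {F : ℕ → ℕ → ℕ} {leaf : ℕ → ℕ} {ch : ℕ → ℕ → ℕ}

theorem gexec_path (h root τ : ℕ) (r : ℕ → ZMod p) (hτ : τ < MM p D ^ h) :
    ∀ m ≤ stopN (MM p D) D h τ, gexec p D L F leaf ch h root 0 1 τ r =
      gexec p D L F leaf ch (h - m) (nodeN (MM p D) D h root ch τ m) (blkN (MM p D) D h τ m)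
        (sgZ p (sgnN (MM p D) D h τ m)) (τ % MM p D ^ (h - m)) r
  | 0, _ => by
    rw [Nat.sub_zero, Nat.mod_eq_of_lt hτ]
    rfl
  | m + 1, hm => by
    rw [gexec_path h root τ r hτ m (by omega)]
    have hle := stopN_le (MM p D) D h τ
    obtain ⟨j, hj⟩ : ∃ j, h - m = j + 1 := ⟨h - m - 1, by omega⟩
    have hj' : h - (m + 1) = j := by omega
    have hj'' : h - 1 - m = j := by omega
    rw [hj, hj']
    have hC := stopN_lt (show m < stopN (MM p D) D h τ by omega)
    rw [isC_iff] at hC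
    have hd : τ % MM p D ^ (j + 1) / MM p D ^ j % (2 * D + 3) = subD (MM p D) D h τ m := by
      rw [subD, hj'', pow_succ, Nat.mod_mul_right_div_self]
    have hmod : τ % MM p D ^ (j + 1) % MM p D ^ j = τ % MM p D ^ j := by
      rw [pow_succ, Nat.mod_mul_right_mod]
    have hnode : nodeN (MM p D) D h root ch τ (m + 1) =
      ch (nodeN (MM p D) D h root ch τ m) (kidx D (subD (MM p D) D h τ m)) := rfl
    have hblk : blkN (MM p D) D h τ (m + 1) =
      (blkN (MM p D) D h τ m + (kidx D (subD (MM p D) D h τ m) + 1)) % (D + 1) := rfl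
    have hsgn : sgnN (MM p D) D h τ (m + 1) = le01 (subD (MM p D) D h τ m) D := rfl
    rw [gexec, hd, hmod, hnode, hblk, hsgn]
    generalize subD (MM p D) D h τ m = s at *
    by_cases h1 : 1 ≤ s ∧ s ≤ D
    · have h2 : kidx D s = s - 1 := by simp [kidx, ifz, le01, h1.2]
      have h3 : sgZ p (le01 s D) = 1 := by simp [sgZ, le01, h1.2]
      rw [if_pos h1, h2, h3]
      have h4 : s - 1 + 1 = s := by omega
      rw [h4]
    · have h5 : D + 2 ≤ s ∧ s ≤ 2 * D + 1 := by omega
      have h6 : ¬ s ≤ D := by omega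
      have h2 : kidx D s = s - (D + 2) := by simp [kidx, ifz, le01, h6]
      have h3 : sgZ p (le01 s D) = -1 := by simp [sgZ, le01, h6]
      rw [if_neg h1, if_pos h5, h2, h3]
      have h4 : s - (D + 2) + 1 = s - (D + 1) := by omega
      rw [h4]

theorem gndN_lt (hp : 0 < p) (h root τ R i : ℕ) : gndN p D L h root F leaf ch τ R i < p := by
  have h1 : ∀ x, x % p < p := fun x => Nat.mod_lt _ hp
  have h2 : ∀ j, dig p R j < p := fun j => dig_lt hp R j
  unfold gndN
  simp only [ifz_eq01]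
  simp only [ifz]
  split_ifs <;> exact h1 _

variable [hpr : Fact p.Prime]

theorem gstep_cast (h2p : 2 < p) {h root τ R : ℕ} {r : ℕ → ZMod p} (hτ : τ < MM p D ^ h)
    (hR : ∀ i < (D + 1) * L, ((dig p R i : ℕ) : ZMod p) = r i) :
    ∀ i < (D + 1) * L, ((dig p (gstepN p D L h root F leaf ch τ R) i : ℕ) : ZMod p) =
      gexec p D L F leaf ch h root 0 1 τ r i := by
  intro i hi
  have hpos := hpr.out.pos
  rw [gstepN, dig_tab (fun i _ => gndN_lt hpos _ _ _ _ _) hi,
    gexec_path h root τ r hτ _ le_rfl]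
  have hp1 : ((p - 1 : ℕ) : ZMod p) = -1 := by
    rw [Nat.cast_sub hpos]
    simp
  have hle := stopN_le (MM p D) D h τ
  by_cases hs : stopN (MM p D) D h τ = h
  · rw [hs, Nat.sub_self, gndN, hs, Nat.sub_self, ifz_zero, gexec, addB]
    rw [ifz_eq01]
    split_ifs with h1
    · rw [ZMod.natCast_mod]
      push_cast
      rw [hR i hi]
      congr 1
      rw [bitZ]
      congr 1
      unfold sgZ
      by_cases h3 : sgnN (MM p D) D h τ h = 0
      · rw [h3, ifz_zero, if_pos rfl, hp1]
      · rw [ifz_ne h3, if_neg h3]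
        simp
    · exact hR i hi
  · have hC := stopN_stop (show stopN (MM p D) D h τ < h by omega)
    rw [gndN]
    generalize stopN (MM p D) D h τ = m at *
    obtain ⟨j, hj⟩ : ∃ j, h - m = j + 1 := ⟨h - m - 1, by omega⟩
    have hj'' : h - 1 - m = j := by omega
    have hd : τ % MM p D ^ (j + 1) / MM p D ^ j = τ / MM p D ^ j % MM p D := by
      rw [pow_succ, Nat.mod_mul_right_div_self]
    have hmod : τ % MM p D ^ (j + 1) % MM p D ^ j = τ % MM p D ^ j := by
      rw [pow_succ, Nat.mod_mul_right_mod]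
    have hsub : τ / MM p D ^ j % MM p D % (2 * D + 3) = subD (MM p D) D h τ m := by
      rw [subD, hj'']
    rw [hj, gexec, hd, hmod, hsub, hj'', ifz_ne (Nat.succ_ne_zero j)]
    have hslt : subD (MM p D) D h τ m < 2 * D + 3 := Nat.mod_lt _ (by omega)
    generalize subD (MM p D) D h τ m = s at *
    have h1 : ¬ (1 ≤ s ∧ s ≤ D) := fun h => by
      have := (isC_iff D s).2 (Or.inl h)
      omega
    have h2 : ¬ (D + 2 ≤ s ∧ s ≤ 2 * D + 1) := fun h => by
      have := (isC_iff D s).2 (Or.inr h)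
      omega
    rw [if_neg h1, if_neg h2]
    by_cases h3 : τ % MM p D ^ j = 0
    · rw [if_pos h3, h3, ifz_zero]
      by_cases h4 : s = 0
      · rw [if_pos h4, h4, ifz_zero, ifz_eq01, opScale]
        split_ifs with h5
        · exact hR i hi
        · rw [ZMod.natCast_mod, Nat.cast_mul, hR i hi]
      · rw [if_neg h4, ifz_ne h4, ifz_eq01]
        by_cases h5 : s = D + 1
        · rw [if_pos h5, if_pos h5, ifz_eq01, opF]
          split_ifs with h6
          · rw [ZMod.natCast_mod, Nat.cast_add, Nat.cast_mul, hR i hi, fhN_cast hR, sub_eq_add_neg,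
              ← neg_mul]
            congr 2
            unfold sgZ
            by_cases h7 : sgnN (MM p D) D h τ m = 0
            · rw [h7, ifz_zero, if_pos rfl]
              simp
            · rw [ifz_ne h7, if_neg h7, hp1]
          · exact hR i hi
        · rw [if_neg h5, if_neg h5, ifz_eq01, opScale]
          split_ifs with h6
          · exact hR i hi
          · rw [ZMod.natCast_mod, Nat.cast_mul, hR i hi, invN_cast h2p]
    · rw [if_neg h3, ifz_ne h3]
      exact hR i hi

theorem giter_cast (h2p : 2 < p) (h root : ℕ) : ∀ n ≤ MM p D ^ h, ∀ i < (D + 1) * L,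
    ((dig p (nrec 0 (gstepN p D L h root F leaf ch) n) i : ℕ) : ZMod p) =
      iter (fun τ r => gexec p D L F leaf ch h root 0 1 τ r) n (fun _ => 0) i
  | 0, _ => fun i _ => by
    rw [nrec_zero]
    simp [dig, iter]
  | n + 1, hn => fun i hi => by
    rw [nrec_succ]
    exact gstep_cast h2p (by omega) (giter_cast h2p h root n (by omega)) i hi

/-- **The numeric evaluation computes the value of the root.** -/
theorem gevalN_eq (h2p : 2 < p) (hp : D * L < p - 1) (hF : ∀ u a, F u a < 2 ^ L)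
    (hleaf : ∀ u, leaf u < 2 ^ L) (h root : ℕ) :
    gevalN p D L h root F leaf ch = gval D L F leaf ch h root := by
  rw [gevalN, ← tab_dig (gval D L F leaf ch h root) L (gval_lt hF hleaf _ _)]
  refine tab_congr fun q hq => ?_
  have h1 := giter_cast (F := F) (leaf := leaf) (ch := ch) h2p h root _ le_rfl q
    (show q < (D + 1) * L by
      rw [add_mul, one_mul]
      omega)
  rw [iter_gexec hp hF hleaf h root 0 (Nat.zero_le _) 1, addB, if_pos (Nat.div_eq_of_lt hq),
    Nat.mod_eq_of_lt hq, zero_add, one_mul, bitZ] at h1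
  have h2 : dig p (nrec 0 (gstepN p D L h root F leaf ch) (MM p D ^ h)) q < p :=
    dig_lt hpr.out.pos _ _
  have h3 : dig 2 (gval D L F leaf ch h root) q < p := by
    have := dig_lt (q := 2) (by norm_num) (gval D L F leaf ch h root) q
    omega
  have h4 := congrArg ZMod.val h1
  rw [ZMod.val_natCast_of_lt h2, ZMod.val_natCast_of_lt h3] at h4
  rw [h4, Nat.mod_eq_of_lt (dig_lt (by norm_num) _ _)]

end

variable {α β : Type} [Ctx α] [Ctx β]

theorem LS.gndN {p D L h root τ R i G C : α → ℕ} {F : α → ℕ → ℕ → ℕ} {leaf : α → ℕ → ℕ} {ch : α → ℕ → ℕ → ℕ}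
    (hp : LS p) (hD : LS D) (hL : LS L) (hh : LS h) (hroot : LS root) (hτ : LS τ) (hR : LS R)
    (hi : LS i) (hG : LS G) (hC : LS C) (hF : LS (fun q : α × ℕ × ℕ => F q.1 q.2.1 q.2.2))
    (hleaf : LS (fun z : α × ℕ => leaf z.1 z.2))
    (hch : LS (fun q : α × ℕ × ℕ => ch q.1 q.2.1 q.2.2)) (hb : ∀ a u i, ch a u i ≤ u + G a)
    (hp0 : ∀ a, 0 < p a) (hb2 : ∀ a, 2 ^ (D a * L a) ≤ C a) :
    LS (fun a => gndN (p a) (D a) (L a) (h a) (root a) (F a) (leaf a) (ch a) (τ a) (R a) (i a)) := by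
  have hMM : LS (fun a => MM (p a) (D a)) := by
    unfold MM
    fun_prop
  have hdd : LS (fun a => dig (p a) (R a) (i a)) := by fun_prop
  have hst := LS.stopN hMM hD hh hτ
  have h2 := LS.blkN hMM hD hh hτ hh
  have h3 := LS.sgnN hMM hD hh hτ hh
  have h4 : LS (fun a => leaf a (nodeN (MM (p a) (D a)) (D a) (h a) (root a) (ch a) (τ a)
      (h a))) :=
    LS.comp (g := fun z : α × ℕ => leaf z.1 z.2) (f := fun a => (a, nodeN
      (MM (p a) (D a)) (D a) (h a) (root a) (ch a) (τ a) (h a))) hleaf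
      (LS.prodMk LS.id (LS.nodeN hMM hD hh hroot hτ hh hG hch hb))
  have h5 : LS (fun a => τ a % MM (p a) (D a) ^ (h a - 1 - stopN (MM (p a) (D a)) (D a)
      (h a) (τ a))) := LS.modPow hMM hτ (by fun_prop)
  have h6 := LS.subD hMM hD hh hτ hst
  have h7 := LS.blkN hMM hD hh hτ hst
  have h8 := LS.sgnN hMM hD hh hτ hst
  have hiL : LS (fun a => i a % L a) := by fun_prop
  have h9 := LS.fhN (F := fun a x => F a (nodeN (MM (p a) (D a)) (D a) (h a) (root a) (ch a) (τ a)
      (stopN (MM (p a) (D a)) (D a) (h a) (τ a))) x) hp hD hL hR h7 hiL hC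
    (LS.comp (g := fun q : α × ℕ × ℕ => F q.1 q.2.1 q.2.2) (f := fun z : α × ℕ => (z.1,
      nodeN (MM (p z.1) (D z.1)) (D z.1) (h z.1) (root z.1) (ch z.1) (τ z.1)
      (stopN (MM (p z.1) (D z.1)) (D z.1) (h z.1) (τ z.1)), z.2)) hF
      (LS.prodMk LS.fst (LS.prodMk (LS.comp (g := fun a : α => nodeN (MM (p a) (D a)) (D a) (h a)
        (root a) (ch a) (τ a) (stopN (MM (p a) (D a)) (D a) (h a) (τ a)))
        (LS.nodeN hMM hD hh hroot hτ hst hG hch hb) LS.fst) LS.snd))) hp0 hb2
  have hc : LS (fun a => τ a / MM (p a) (D a) ^ (h a - 1 - stopN (MM (p a) (D a)) (D a)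
      (h a) (τ a)) % MM (p a) (D a) / (2 * D a + 3) + 1) := by
    have := LS.divPow hMM hτ (i := fun a => h a - 1 - stopN (MM (p a) (D a)) (D a)
      (h a) (τ a)) (by fun_prop)
    fun_prop
  have hiv := LS.invN hp hc hp0
  exact LS.ndForm hst h2 h3 h4 h5 h6 h7 h8 h9 hp hL hh hdd hi hD hc hiv

theorem LS.gstepN {p D L h root τ R G C : α → ℕ} {F : α → ℕ → ℕ → ℕ} {leaf : α → ℕ → ℕ} {ch : α → ℕ → ℕ → ℕ}
    (hp : LS p) (hD : LS D) (hL : LS L) (hh : LS h) (hroot : LS root) (hτ : LS τ) (hR : LS R)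
    (hG : LS G) (hC : LS C) (hF : LS (fun q : α × ℕ × ℕ => F q.1 q.2.1 q.2.2))
    (hleaf : LS (fun z : α × ℕ => leaf z.1 z.2))
    (hch : LS (fun q : α × ℕ × ℕ => ch q.1 q.2.1 q.2.2)) (hb : ∀ a u i, ch a u i ≤ u + G a)
    (hp0 : ∀ a, 0 < p a) (hb2 : ∀ a, 2 ^ (D a * L a) ≤ C a)
    (hb3 : ∀ a, p a ^ ((D a + 1) * L a) ≤ C a) :
    LS (fun a => gstepN (p a) (D a) (L a) (h a) (root a) (F a) (leaf a) (ch a) (τ a) (R a)) := by
  unfold Mpc.gstepN
  refine LS.tab (d := fun a i => Mpc.gndN (p a) (D a) (L a) (h a) (root a) (F a) (leaf a)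
    (ch a) (τ a) (R a) i) ?_ hp (by fun_prop) hC (fun a i _ => gndN_lt (hp0 a) _ _ _ _ _) hb3
  refine LS.gndN (p := fun z : α × ℕ => p z.1) (D := fun z => D z.1) (L := fun z => L z.1)
    (h := fun z => h z.1) (root := fun z => root z.1) (τ := fun z => τ z.1) (R := fun z => R z.1)
    (i := fun z => z.2) (G := fun z => G z.1) (C := fun z => C z.1) (F := fun z => F z.1)
    (leaf := fun z => leaf z.1) (ch := fun z => ch z.1) (by fun_prop) (by fun_prop) (by fun_prop)
    (by fun_prop) (by fun_prop) (by fun_prop) (by fun_prop) (by fun_prop) (by fun_prop)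
    (by fun_prop) ?_ ?_ ?_ (fun z => hb z.1) (fun z => hp0 z.1) (fun z => hb2 z.1)
  · exact LS.comp (g := fun q : α × ℕ × ℕ => F q.1 q.2.1 q.2.2)
      (f := fun z : (α × ℕ) × ℕ × ℕ => (z.1.1, z.2)) hF (by fun_prop)
  · exact LS.comp (g := fun z : α × ℕ => leaf z.1 z.2) (f := fun z : (α × ℕ) × ℕ => (z.1.1, z.2))
      hleaf (by fun_prop)
  · exact LS.comp (g := fun q : α × ℕ × ℕ => ch q.1 q.2.1 q.2.2)
      (f := fun z : (α × ℕ) × ℕ × ℕ => (z.1.1, z.2)) hch (by fun_prop)

/-- **Tree evaluation in linear space.** -/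
theorem LS.gval {p D L h root G C : α → ℕ} {F : α → ℕ → ℕ → ℕ} {leaf : α → ℕ → ℕ} {ch : α → ℕ → ℕ → ℕ}
    (hp : LS p) (hD : LS D) (hL : LS L) (hh : LS h) (hroot : LS root)
    (hG : LS G) (hC : LS C) (hF : LS (fun q : α × ℕ × ℕ => F q.1 q.2.1 q.2.2))
    (hleaf : LS (fun z : α × ℕ => leaf z.1 z.2))
    (hch : LS (fun q : α × ℕ × ℕ => ch q.1 q.2.1 q.2.2)) (hb : ∀ a u i, ch a u i ≤ u + G a)
    (hprime : ∀ a, (p a).Prime) (hp2 : ∀ a, 2 < p a) (hDL : ∀ a, D a * L a < p a - 1)
    (hF' : ∀ a u x, F a u x < 2 ^ L a) (hleaf' : ∀ a u, leaf a u < 2 ^ L a)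
    (hb3 : ∀ a, p a ^ ((D a + 1) * L a) ≤ C a) (hb4 : ∀ a, MM (p a) (D a) ^ h a ≤ C a) :
    LS (fun a => gval (D a) (L a) (F a) (leaf a) (ch a) (h a) (root a)) := by
  have hp0 : ∀ a, 0 < p a := fun a => (hprime a).pos
  have hb2 : ∀ a, 2 ^ (D a * L a) ≤ C a := fun a =>
    ((Nat.pow_le_pow_left (hprime a).two_le _).trans
      (Nat.pow_le_pow_right (hp0 a) (Nat.mul_le_mul_right _ (Nat.le_succ _)))).trans (hb3 a)
  have hb5 : ∀ a, 2 ^ L a ≤ C a := fun a =>
    ((Nat.pow_le_pow_left (hprime a).two_le _).trans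
      (Nat.pow_le_pow_right (hp0 a) (Nat.le_mul_of_pos_left _ (Nat.succ_pos _)))).trans (hb3 a)
  have hMM : LS (fun a => MM (p a) (D a)) := by
    unfold MM
    fun_prop
  refine LS.congr (f := fun a => gevalN (p a) (D a) (L a) (h a) (root a) (F a) (leaf a) (ch a)) ?_
    fun a => by
      have := Fact.mk (hprime a)
      exact (gevalN_eq (hp2 a) (hDL a) (hF' a) (hleaf' a) _ _).symm
  unfold gevalN
  have h1 : LS (fun a => nrec 0 (Mpc.gstepN (p a) (D a) (L a) (h a) (root a) (F a)
      (leaf a) (ch a)) (MM (p a) (D a) ^ h a)) := by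
    refine LS.nrec (G := fun _ => 0) (N := fun a => MM (p a) (D a) ^ h a) (C := C)
      (K := fun a => Mpc.gstepN (p a) (D a) (L a) (h a) (root a) (F a) (leaf a) (ch a))
      (by fun_prop) (LS.pow_of_le hMM hh hC hb4) hC ?_ ?_
    · refine LS.gstepN (p := fun z : α × ℕ × ℕ => p z.1) (D := fun z => D z.1)
        (L := fun z => L z.1) (h := fun z => h z.1) (root := fun z => root z.1)
        (τ := fun z => z.2.1) (R := fun z => z.2.2) (G := fun z => G z.1) (C := fun z => C z.1)
        (F := fun z => F z.1) (leaf := fun z => leaf z.1) (ch := fun z => ch z.1)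
        (by fun_prop) (by fun_prop) (by fun_prop)
        (by fun_prop) (by fun_prop) (by fun_prop) (by fun_prop) (by fun_prop)
        (by fun_prop) ?_ ?_ ?_ (fun z => hb z.1) (fun z => hp0 z.1) (fun z => hb2 z.1)
        (fun z => hb3 z.1)
      · exact LS.comp (g := fun q : α × ℕ × ℕ => F q.1 q.2.1 q.2.2)
          (f := fun z : (α × ℕ × ℕ) × ℕ × ℕ => (z.1.1, z.2)) hF (by fun_prop)
      · exact LS.comp (g := fun z : α × ℕ => leaf z.1 z.2)
          (f := fun z : (α × ℕ × ℕ) × ℕ => (z.1.1, z.2)) hleaf (by fun_prop)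
      · exact LS.comp (g := fun q : α × ℕ × ℕ => ch q.1 q.2.1 q.2.2)
          (f := fun z : (α × ℕ × ℕ) × ℕ × ℕ => (z.1.1, z.2)) hch (by fun_prop)
    · intro a i _
      rcases i with _ | i
      · exact Nat.zero_le _
      · rw [nrec_succ]
        exact (tab_lt (fun i _ => gndN_lt (hp0 a) _ _ _ _ _)).le.trans (hb3 a)
  refine LS.tab (q := fun _ : α => 2) (m := L) (C := C)
    (d := fun a i => dig (p a) (nrec 0 (Mpc.gstepN (p a)
      (D a) (L a) (h a) (root a) (F a) (leaf a) (ch a)) (MM (p a) (D a) ^ h a)) i % 2) ?_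
      (by fun_prop) hL hC (fun a i _ => Nat.mod_lt _ (by norm_num)) hb5
  have h2 : LS (fun z : α × ℕ => nrec 0 (Mpc.gstepN (p z.1) (D z.1) (L z.1) (h z.1)
      (root z.1) (F z.1) (leaf z.1) (ch z.1)) (MM (p z.1) (D z.1) ^ h z.1)) :=
    LS.comp (f := fun z : α × ℕ => z.1) h1 (by fun_prop)
  exact LS.mod (LS.dig (by fun_prop) h2 (by fun_prop)) (by fun_prop)

end Pool.Agent.Helper78.Mpc
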