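import Pool.Agent.Helper65.LinSpace.Defs

/-!
# Massively parallel computation (MapReduce): definitions
-/

namespace Pool.Agent.Helper78.Mpc

open Pool.Agent.Helper65.LinSpace

/-- `f` is computable in linear space: the `i`-th letter of `f w` can be determined by a Turing
machine in space linear in `i + |w|`. -/
def LinComp (f : List Bool → List Bool) : Prop :=
  ∀ b : Bool, DLINSPACE {u | ∃ (i : ℕ) (w : List Bool),
    u = List.replicate i true ++ false :: w ∧ (f w)[i]? = some b}

/-- The self-delimiting code `1 a₁ 1 a₂ … 1 aₗ 0` of the word `a₁ a₂ … aₗ`. -/
def sd : List Bool → List Bool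
  | [] => [false]
  | b :: w => true :: b :: sd w

/-- An algorithm for massively parallel computation. The memory of a machine is a word. In each
round the machine `i` with memory `v` sends to the machine `j` the message
`msg (⟨i⟩ ⟨j⟩ v)` (the empty word is no message), and the new memory of a machine `j` which has
received the word `u` is `upd (⟨j⟩ u)`; here `⟨i⟩` is the self-delimiting binary code of `i`.
The functions `msg` and `upd` are computed in linear space. -/
structure MPC where
  init : Option Bool → Option Bool → List Bool
  msg : List Bool → List Bool
  upd : List Bool → List Bool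
  msg_lin : LinComp msg
  upd_lin : LinComp upd

/-- A message `μ` together with the name `i` of its sender; nothing if there is no message. -/
def frame (i : ℕ) (μ : List Bool) : List Bool := if μ = [] then [] else sd i.bits ++ sd μ

/-- The word received by the machine `j` when the `m` machines have the memories `v`. -/
def MPC.inbox (A : MPC) (m : ℕ) (v : ℕ → List Bool) (j : ℕ) : List Bool :=
  (List.range m).flatMap fun i => frame i (A.msg (sd i.bits ++ (sd j.bits ++ v i)))

/-- The memory of the machine `j` after `r` rounds on the input word `w` and the guess `y`, with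
`m` machines. At the start the machine `j` knows the `j`-th letters of `w` and `y` only. -/
def MPC.mem (A : MPC) (m : ℕ) (w y : List Bool) : ℕ → ℕ → List Bool
  | 0, j => A.init w[j]? y[j]?
  | r + 1, j => A.upd (sd j.bits ++ A.inbox m (A.mem m w y r) j)

/-- Up to the round `r`, all memories and all received words have length at most `s`. -/
def MPC.Fits (A : MPC) (m : ℕ) (w y : List Bool) (r : ℕ) (s : ℝ) : Prop :=
  (∀ t ≤ r, ∀ j < m, ((A.mem m w y t j).length : ℝ) ≤ s) ∧
    ∀ t < r, ∀ j < m, ((A.inbox m (A.mem m w y t) j).length : ℝ) ≤ s

/-- The first letter of the memory of the machine `0` after `r` rounds is `1`. -/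
def MPC.AcceptsAt (A : MPC) (m : ℕ) (w y : List Bool) (r : ℕ) : Prop :=
  (A.mem m w y r 0).head? = some true

/-- `A` accepts the language `L` with `(n + 2) ^ k` machines, with at most `g n` guessed bits,
within `R n` rounds and with at most `s n` bits of memory per machine, `n` being the length of the
input word: `w` is in `L` if and only if for some guess `y` the machine `0` accepts in some round,
and for `w` in `L` this happens within the stated bounds for some `y`. -/
def MPC.Accepts (A : MPC) (k : ℕ) (L : Set (List Bool)) (g R s : ℕ → ℝ) : Prop :=
  (∀ w y r, A.AcceptsAt ((w.length + 2) ^ k) w y r → w ∈ L) ∧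
  ∀ w ∈ L, ∃ (y : List Bool) (r : ℕ), (y.length : ℝ) ≤ g w.length ∧ (r : ℝ) ≤ R w.length ∧
    A.Fits ((w.length + 2) ^ k) w y r (s w.length) ∧ A.AcceptsAt ((w.length + 2) ^ k) w y r

end Pool.Agent.Helper78.Mpc
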