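import Pool.Agent.Helper78.Mpc.Words
import Pool.Agent.Helper78.Mpc.GTree

/-!
# The tree of a massively parallel computation
-/

namespace Pool.Agent.Helper78.Mpc

open Pool.Agent.Helper65.LinSpace Finset

/-! ### Numeric functions -/

/-- The label of a node. -/
def packL (M l a j : ℕ) : ℕ := (l * M + a) * M + j

/-- The number of the word which the machine `j` receives from the machine `a` with memory `v`. -/
def sendN (eM S Λ β B a j v : ℕ) : ℕ :=
  ifz (fnN eM S Λ β B (catN (sdN (bitsN a)) (catN (sdN (bitsN j)) v))) 0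
    (ifz (fnN eM S Λ β B (catN (sdN (bitsN a)) (catN (sdN (bitsN j)) v)) - 1) 1
      (catN (sdN (bitsN a)) (sdN (fnN eM S Λ β B (catN (sdN (bitsN a))
        (catN (sdN (bitsN j)) v))))))

/-- The operation of the node `u`. -/
def FN (eM eU S Λ β B m M u x : ℕ) : ℕ :=
  capN S (ifz (u / M / M) (fnN eU S Λ β B (catN (sdN (bitsN (u % M))) (dig (2 ^ (S + 1)) x 0)))
    (ifz (u / M / M - 1) (ifz (lt01 (u / M % M) m) 1
      (sendN eM S Λ β B (u / M % M) (u % M) (dig (2 ^ (S + 1)) x 0)))
      (catN (dig (2 ^ (S + 1)) x 0) (dig (2 ^ (S + 1)) x 1))))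

/-- The children of the node `u`. -/
def chM (lam M u i : ℕ) : ℕ :=
  ifz (u / M / M) (packL M (lam + 1) 0 (u % M))
    (ifz (u / M / M - 1) (packL M 0 0 (u / M % M))
      (packL M (u / M / M - 1) ((2 * (u / M % M) + i) % M) (u % M)))

/-- The leaves. -/
def leafM (S ini B0 M x y u : ℕ) : ℕ :=
  capN S (dig B0 ini (3 * letN x (u % M) + letN y (u % M)))

theorem packL_div {M a j : ℕ} (l : ℕ) (ha : a < M) (hj : j < M) :
    packL M l a j / M / M = l ∧ packL M l a j / M % M = a ∧ packL M l a j % M = j := by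
  unfold packL
  rw [div_eq_block hj, mod_eq_block hj, div_eq_block ha, mod_eq_block ha]
  exact ⟨rfl, rfl, rfl⟩

theorem packL_lt {M a j : ℕ} (l : ℕ) (ha : a < M) (hj : j < M) :
    packL M l a j < (l + 1) * (M * M) := by
  unfold packL
  have h1 : (l * M + a + 1) * M ≤ (l + 1) * (M * M) := by
    rw [← mul_assoc]
    refine Nat.mul_le_mul_right _ ?_
    rw [Nat.succ_mul]
    omega
  rw [Nat.succ_mul] at h1
  omega

theorem chM_le {M : ℕ} (hM : 0 < M) (lam u i : ℕ) :
    chM lam M u i ≤ u + (lam + 2) * (M * M) := by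
  have h1 : u % M < M := Nat.mod_lt _ hM
  have h2 : u / M % M < M := Nat.mod_lt _ hM
  have h3 : (2 * (u / M % M) + i) % M < M := Nat.mod_lt _ hM
  unfold chM
  by_cases c0 : u / M / M = 0
  · rw [c0, ifz_zero]
    have := packL_lt (lam + 1) hM h1
    have e : lam + 1 + 1 = lam + 2 := rfl
    rw [e] at this
    omega
  · rw [ifz_ne c0]
    by_cases c1 : u / M / M - 1 = 0
    · rw [c1, ifz_zero]
      have := packL_lt 0 hM h2
      have h4 : (0 + 1) * (M * M) ≤ (lam + 2) * (M * M) := Nat.mul_le_mul_right _ (by omega)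
      omega
    · rw [ifz_ne c1]
      have h5 := packL_lt (u / M / M - 1) h3 h1
      have h6 : u / M / M - 1 + 1 = u / M / M := by omega
      rw [h6, Nat.div_div_eq_div_mul] at h5
      have h7 : u / (M * M) * (M * M) ≤ u := Nat.div_mul_le_self _ _
      have h8 : packL M (u / M / M - 1) ((2 * (u / M % M) + i) % M) (u % M) =
        packL M (u / (M * M) - 1) ((2 * (u / M % M) + i) % M) (u % M) := by
        rw [Nat.div_div_eq_div_mul]
      rw [h8]
      omega

/-! ### Words -/

section

variable (A : MPC) (m : ℕ) (v : ℕ → List Bool) (j : ℕ)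

/-- The part of the inbox of `j` which comes from the machines `a 2^l, …, (a + 1) 2^l - 1`. -/
def chunk (l a : ℕ) : List Bool :=
  (List.range (2 ^ l)).flatMap fun t => if a * 2 ^ l + t < m then
    frame (a * 2 ^ l + t) (A.msg (sd (a * 2 ^ l + t).bits ++ (sd j.bits ++ v (a * 2 ^ l + t))))
    else []

theorem chunk_zero (a : ℕ) : chunk A m v j 0 a =
    if a < m then frame a (A.msg (sd a.bits ++ (sd j.bits ++ v a))) else [] := by
  unfold chunk
  simp only [pow_zero, List.range_one, List.flatMap_cons, List.flatMap_nil, List.append_nil,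
    mul_one, add_zero]

theorem chunk_succ (l a : ℕ) : chunk A m v j (l + 1) a =
    chunk A m v j l (2 * a) ++ chunk A m v j l (2 * a + 1) := by
  unfold chunk
  have e : 2 ^ (l + 1) = 2 ^ l + 2 ^ l := by ring
  rw [e, List.range_add, List.flatMap_append, List.flatMap_map]
  have e1 : ∀ t, a * (2 ^ l + 2 ^ l) + t = 2 * a * 2 ^ l + t := by
    intro t
    ring
  have e2 : ∀ t, 2 * a * 2 ^ l + (2 ^ l + t) = (2 * a + 1) * 2 ^ l + t := by
    intro t
    ring
  simp only [e1, e2]

theorem chunk_top {l : ℕ} (h : m ≤ 2 ^ l) : chunk A m v j l 0 = A.inbox m v j := by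
  unfold chunk MPC.inbox
  obtain ⟨d, hd⟩ := Nat.exists_eq_add_of_le h
  rw [hd, List.range_add, List.flatMap_append, List.flatMap_map]
  have e1 : (List.range d).flatMap (fun t => if 0 * (m + d) + (m + t) < m then
      frame (0 * (m + d) + (m + t)) (A.msg (sd (0 * (m + d) + (m + t)).bits ++
        (sd j.bits ++ v (0 * (m + d) + (m + t))))) else []) = [] := by
    rw [List.flatMap_eq_nil_iff]
    intro t _
    rw [if_neg (by omega)]
  rw [e1, List.append_nil]
  refine List.flatMap_congr fun t ht => ?_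
  rw [List.mem_range] at ht
  simp only [zero_mul, zero_add]
  rw [if_pos ht]

end

theorem num_eq_one {w : List Bool} (h : num w = 1) : w = [] := by
  rcases w with _ | ⟨b, w⟩
  · rfl
  · have h1 := num_pos w
    have h2 : num (b :: w) = b.toNat + 2 * num w := rfl
    omega

theorem length_le_frame (i : ℕ) (μ : List Bool) : μ.length ≤ (frame i μ).length := by
  unfold frame
  split_ifs with h
  · rw [h]
  · rw [List.length_append, length_sd, length_sd]
    omega

theorem length_of_lt {S x : ℕ} (h : x < 2 ^ (S + 1)) {w : List Bool} (hw : x = num w) :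
    w.length ≤ S := by
  subst hw
  have h1 := Nat.pow_log_le_self 2 (num_pos w).ne'
  rw [log_num] at h1
  have := (Nat.pow_lt_pow_iff_right (a := 2) (by norm_num)).1 (lt_of_le_of_lt h1 h)
  omega

section

variable {A : MPC} {eM eU S Λ β B lam Q : ℕ}

/-- The number `e` computes the function `f` on words of length at most `Q`. -/
def Good (f : List Bool → List Bool) (e S Λ β B Q : ℕ) : Prop :=
  ∀ u : List Bool, u.length ≤ Q →
    fnN e S Λ β B (num u) = if (f u).length ≤ S then num (f u) else 0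

theorem fnN_ne {f : List Bool → List Bool} {e : ℕ} (hf : Good f e S Λ β B Q) {u : List Bool}
    (hu : u.length ≤ Q) (h : fnN e S Λ β B (num u) ≠ 0) :
    fnN e S Λ β B (num u) = num (f u) := by
  rw [hf u hu] at h ⊢
  split_ifs at h ⊢ with h1
  · rfl
  · exact absurd rfl h

theorem fnN_zero (e : ℕ) : fnN e S Λ β B 0 = 0 := rfl

theorem sendN_spec (hmsg : Good A.msg eM S Λ β B Q) (hQ : S + 4 * lam + 2 ≤ Q) {a j : ℕ}
    (ha : a < 2 ^ lam) (hj : j < 2 ^ lam) {x : ℕ} {v : List Bool} (hx : x < 2 ^ (S + 1)) :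
    ((x ≠ 0 → x = num v) → sendN eM S Λ β B a j x ≠ 0 →
      sendN eM S Λ β B a j x = num (frame a (A.msg (sd a.bits ++ (sd j.bits ++ v))))) ∧
    (x = num v → (frame a (A.msg (sd a.bits ++ (sd j.bits ++ v)))).length ≤ S →
      sendN eM S Λ β B a j x = num (frame a (A.msg (sd a.bits ++ (sd j.bits ++ v))))) := by
  have hla := length_bits ha
  have hlj := length_bits hj
  have hlen : x = num v → (sd a.bits ++ (sd j.bits ++ v)).length ≤ Q := by
    intro h
    have := length_of_lt hx h
    rw [List.length_append, List.length_append, length_sd, length_sd]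
    omega
  have harg : x = num v → catN (sdN (bitsN a)) (catN (sdN (bitsN j)) x) =
      num (sd a.bits ++ (sd j.bits ++ v)) := by
    intro h
    rw [h, bitsN_eq, bitsN_eq, sdN_num, sdN_num, catN_num, catN_num]
  have hmain : x = num v → fnN eM S Λ β B (num (sd a.bits ++ (sd j.bits ++ v))) ≠ 0 →
      sendN eM S Λ β B a j x = num (frame a (A.msg (sd a.bits ++ (sd j.bits ++ v)))) := by
    intro h h1
    have h2 := fnN_ne hmsg (hlen h) h1
    unfold sendN
    rw [harg h, ifz_ne h1, h2]
    unfold frame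
    by_cases h3 : A.msg (sd a.bits ++ (sd j.bits ++ v)) = []
    · rw [h3, if_pos rfl]
      rfl
    · rw [if_neg h3]
      have h4 : num (A.msg (sd a.bits ++ (sd j.bits ++ v))) - 1 ≠ 0 := by
        intro h5
        apply h3
        refine num_eq_one ?_
        have := num_pos (A.msg (sd a.bits ++ (sd j.bits ++ v)))
        omega
      rw [ifz_ne h4, bitsN_eq, sdN_num, sdN_num, catN_num]
  constructor
  · intro h hne
    have hx0 : x ≠ 0 := by
      rintro rfl
      apply hne
      unfold sendN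
      have e1 : catN (sdN (bitsN j)) 0 = 0 := by
        unfold catN
        rcases Nat.eq_zero_or_pos (sdN (bitsN j)) with h | h
        · rw [h]
          rfl
        · rw [ifz_ne h.ne', ifz_zero]
      have e2 : catN (sdN (bitsN a)) 0 = 0 := by
        unfold catN
        rcases Nat.eq_zero_or_pos (sdN (bitsN a)) with h | h
        · rw [h]
          rfl
        · rw [ifz_ne h.ne', ifz_zero]
      rw [e1, e2, fnN_zero]
      rfl
    refine hmain (h hx0) ?_
    rw [← harg (h hx0)]
    intro h0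
    apply hne
    unfold sendN
    rw [h0, ifz_zero]
  · intro h hfr
    refine hmain h ?_
    rw [hmsg _ (hlen h), if_pos ((length_le_frame a _).trans hfr)]
    exact (num_pos _).ne'

end

section

variable {A : MPC} {eM eU S Λ β B lam Q m ini B0 : ℕ} {w y : List Bool}

/-- The value of a node. -/
def VV (eM eU S Λ β B m lam ini B0 x y h u : ℕ) : ℕ :=
  gval 2 (S + 1) (FN eM eU S Λ β B m (2 ^ lam)) (leafM S ini B0 (2 ^ lam) x y)
    (chM lam (2 ^ lam)) h u

theorem VV_lt (x y h u : ℕ) : VV eM eU S Λ β B m lam ini B0 x y h u < 2 ^ (S + 1) :=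
  gval_lt (fun _ _ => capN_lt _ _) (fun _ => capN_lt _ _) _ _

theorem dig_child (f : ℕ → ℕ) (hf : ∀ i, f i < 2 ^ (S + 1)) :
    dig (2 ^ (S + 1)) (tab (2 ^ (S + 1)) 2 f) 0 = f 0 ∧
      dig (2 ^ (S + 1)) (tab (2 ^ (S + 1)) 2 f) 1 = f 1 :=
  ⟨dig_tab (fun i _ => hf i) (by norm_num), dig_tab (fun i _ => hf i) (by norm_num)⟩

theorem FN_zero {j : ℕ} (hj : j < 2 ^ lam) (x : ℕ) :
    FN eM eU S Λ β B m (2 ^ lam) (packL (2 ^ lam) 0 0 j) x =
      capN S (fnN eU S Λ β B (catN (sdN (bitsN j)) (dig (2 ^ (S + 1)) x 0))) := by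
  obtain ⟨h1, h2, h3⟩ := packL_div 0 (show 0 < 2 ^ lam by positivity) hj
  unfold FN
  rw [h1, h2, h3, ifz_zero]

theorem FN_one {a j : ℕ} (ha : a < 2 ^ lam) (hj : j < 2 ^ lam) (x : ℕ) :
    FN eM eU S Λ β B m (2 ^ lam) (packL (2 ^ lam) 1 a j) x =
      capN S (ifz (lt01 a m) 1 (sendN eM S Λ β B a j (dig (2 ^ (S + 1)) x 0))) := by
  obtain ⟨h1, h2, h3⟩ := packL_div 1 ha hj
  unfold FN
  rw [h1, h2, h3, ifz_ne one_ne_zero]
  rfl

theorem FN_two {l a j : ℕ} (ha : a < 2 ^ lam) (hj : j < 2 ^ lam) (x : ℕ) :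
    FN eM eU S Λ β B m (2 ^ lam) (packL (2 ^ lam) (l + 2) a j) x =
      capN S (catN (dig (2 ^ (S + 1)) x 0) (dig (2 ^ (S + 1)) x 1)) := by
  obtain ⟨h1, h2, h3⟩ := packL_div (l + 2) ha hj
  unfold FN
  rw [h1, h2, h3, ifz_ne (by omega), ifz_ne (by omega)]

theorem chM_zero {j : ℕ} (hj : j < 2 ^ lam) (i : ℕ) :
    chM lam (2 ^ lam) (packL (2 ^ lam) 0 0 j) i = packL (2 ^ lam) (lam + 1) 0 j := by
  obtain ⟨h1, h2, h3⟩ := packL_div 0 (show 0 < 2 ^ lam by positivity) hj
  unfold chM
  rw [h1, h2, h3, ifz_zero]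

theorem chM_one {a j : ℕ} (ha : a < 2 ^ lam) (hj : j < 2 ^ lam) (i : ℕ) :
    chM lam (2 ^ lam) (packL (2 ^ lam) 1 a j) i = packL (2 ^ lam) 0 0 a := by
  obtain ⟨h1, h2, h3⟩ := packL_div 1 ha hj
  unfold chM
  rw [h1, h2, h3, ifz_ne one_ne_zero]
  rfl

theorem chM_two {l a j i : ℕ} (ha : 2 * a + i < 2 ^ lam) (hj : j < 2 ^ lam) :
    chM lam (2 ^ lam) (packL (2 ^ lam) (l + 2) a j) i =
      packL (2 ^ lam) (l + 1) (2 * a + i) j := by
  obtain ⟨h1, h2, h3⟩ := packL_div (l + 2) (show a < 2 ^ lam by omega) hj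
  unfold chM
  rw [h1, h2, h3, ifz_ne (by omega), ifz_ne (by omega), Nat.mod_eq_of_lt ha]
  rfl

/-- The statement about the chunks of the round `r`. -/
theorem VV_chunk (hmsg : Good A.msg eM S Λ β B Q) (hQ : S + 4 * lam + 2 ≤ Q)
    {r : ℕ} (hA : ∀ a < 2 ^ lam,
      (VV eM eU S Λ β B m lam ini B0 (num w) (num y) (r * (lam + 2)) (packL (2 ^ lam) 0 0 a) ≠ 0 →
        VV eM eU S Λ β B m lam ini B0 (num w) (num y) (r * (lam + 2)) (packL (2 ^ lam) 0 0 a) =
          num (A.mem m w y r a)) ∧
      (A.Fits m w y r S → a < m →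
        VV eM eU S Λ β B m lam ini B0 (num w) (num y) (r * (lam + 2)) (packL (2 ^ lam) 0 0 a) =
          num (A.mem m w y r a)))
    {j : ℕ} (hj : j < 2 ^ lam) : ∀ l ≤ lam, ∀ a < 2 ^ (lam - l),
    (VV eM eU S Λ β B m lam ini B0 (num w) (num y) (r * (lam + 2) + l + 1)
        (packL (2 ^ lam) (l + 1) a j) ≠ 0 →
      VV eM eU S Λ β B m lam ini B0 (num w) (num y) (r * (lam + 2) + l + 1)
        (packL (2 ^ lam) (l + 1) a j) = num (chunk A m (A.mem m w y r) j l a)) ∧
    (A.Fits m w y r S → (chunk A m (A.mem m w y r) j l a).length ≤ S →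
      VV eM eU S Λ β B m lam ini B0 (num w) (num y) (r * (lam + 2) + l + 1)
        (packL (2 ^ lam) (l + 1) a j) = num (chunk A m (A.mem m w y r) j l a)) := by
  intro l
  induction l with
  | zero =>
    intro _ a ha
    rw [Nat.sub_zero] at ha
    have hstep : VV eM eU S Λ β B m lam ini B0 (num w) (num y) (r * (lam + 2) + 0 + 1)
        (packL (2 ^ lam) (0 + 1) a j) = capN S (ifz (lt01 a m) 1 (sendN eM S Λ β B a j
          (VV eM eU S Λ β B m lam ini B0 (num w) (num y) (r * (lam + 2))
            (packL (2 ^ lam) 0 0 a)))) := by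
      show FN eM eU S Λ β B m (2 ^ lam) (packL (2 ^ lam) (0 + 1) a j) (tab (2 ^ (S + 1)) 2
        fun i => VV eM eU S Λ β B m lam ini B0 (num w) (num y) (r * (lam + 2))
          (chM lam (2 ^ lam) (packL (2 ^ lam) (0 + 1) a j) i)) = _
      rw [zero_add, FN_one ha hj, (dig_child _ (fun _ => VV_lt _ _ _ _)).1, chM_one ha hj]
    rw [hstep, chunk_zero]
    obtain ⟨hA1, hA2⟩ := hA a ha
    have hsend := sendN_spec (v := A.mem m w y r a) (Λ := Λ) (β := β) (B := B) hmsg hQ ha hj
      (VV_lt (eM := eM) (eU := eU) (Λ := Λ) (β := β) (B := B) (m := m) (lam := lam) (ini := ini)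
        (B0 := B0) (num w) (num y) (r * (lam + 2)) (packL (2 ^ lam) 0 0 a))
    by_cases ham : a < m
    · rw [lt01, if_pos ham, ifz_ne one_ne_zero, if_pos ham]
      constructor
      · intro h
        have h1 := capN_ne h
        rw [h1] at h ⊢
        exact hsend.1 hA1 h
      · intro hfit hlen
        rw [hsend.2 (hA2 hfit ham) hlen, capN_num hlen]
    · rw [lt01, if_neg ham, ifz_zero, if_neg ham]
      have : capN S 1 = num [] := capN_num (w := []) (Nat.zero_le _)
      exact ⟨fun _ => this, fun _ _ => this⟩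
  | succ l ih =>
    intro hl a ha
    have hpow : 2 ^ (lam - l) = 2 * 2 ^ (lam - (l + 1)) := by
      have : lam - l = lam - (l + 1) + 1 := by omega
      rw [this, pow_succ]
      ring
    have hle : 2 ^ (lam - l) ≤ 2 ^ lam := Nat.pow_le_pow_right (by norm_num) (Nat.sub_le _ _)
    have h0 := ih (by omega) (2 * a) (by omega)
    have h1 := ih (by omega) (2 * a + 1) (by omega)
    have hstep : VV eM eU S Λ β B m lam ini B0 (num w) (num y) (r * (lam + 2) + (l + 1) + 1)
        (packL (2 ^ lam) (l + 1 + 1) a j) = capN S (catN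
          (VV eM eU S Λ β B m lam ini B0 (num w) (num y) (r * (lam + 2) + l + 1)
            (packL (2 ^ lam) (l + 1) (2 * a) j))
          (VV eM eU S Λ β B m lam ini B0 (num w) (num y) (r * (lam + 2) + l + 1)
            (packL (2 ^ lam) (l + 1) (2 * a + 1) j))) := by
      show FN eM eU S Λ β B m (2 ^ lam) (packL (2 ^ lam) (l + 2) a j) (tab (2 ^ (S + 1)) 2
        fun i => VV eM eU S Λ β B m lam ini B0 (num w) (num y) (r * (lam + 2) + l + 1)
          (chM lam (2 ^ lam) (packL (2 ^ lam) (l + 2) a j) i)) = _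
      rw [FN_two (by omega) hj, (dig_child _ (fun _ => VV_lt _ _ _ _)).1,
        (dig_child _ (fun _ => VV_lt _ _ _ _)).2, chM_two (by omega) hj, chM_two (by omega) hj,
        add_zero]
    rw [hstep, chunk_succ]
    constructor
    · intro h
      have e1 := capN_ne h
      rw [e1] at h ⊢
      obtain ⟨e2, e3⟩ := catN_eq_zero h
      rw [h0.1 e2, h1.1 e3, catN_num]
    · intro hfit hlen
      have hlen' := hlen
      rw [List.length_append] at hlen
      rw [h0.2 hfit (by omega), h1.2 hfit (by omega), catN_num, capN_num hlen']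

/-- **Correctness of the tree.** -/
theorem VV_mem (hmsg : Good A.msg eM S Λ β B Q) (hupd : Good A.upd eU S Λ β B Q)
    (hQ : S + 4 * lam + 2 ≤ Q) (hm : m ≤ 2 ^ lam)
    (hini : ∀ a b, dig B0 ini (3 * codeO a + codeO b) = num (A.init a b)) (r : ℕ) :
    ∀ j < 2 ^ lam,
      (VV eM eU S Λ β B m lam ini B0 (num w) (num y) (r * (lam + 2)) (packL (2 ^ lam) 0 0 j) ≠ 0 →
        VV eM eU S Λ β B m lam ini B0 (num w) (num y) (r * (lam + 2)) (packL (2 ^ lam) 0 0 j) =
          num (A.mem m w y r j)) ∧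
      (A.Fits m w y r S → j < m →
        VV eM eU S Λ β B m lam ini B0 (num w) (num y) (r * (lam + 2)) (packL (2 ^ lam) 0 0 j) =
          num (A.mem m w y r j)) := by
  induction r with
  | zero =>
    intro j hj
    have h0 : VV eM eU S Λ β B m lam ini B0 (num w) (num y) (0 * (lam + 2))
        (packL (2 ^ lam) 0 0 j) = capN S (num (A.init w[j]? y[j]?)) := by
      rw [zero_mul]
      show capN S (dig B0 ini (3 * letN (num w) (packL (2 ^ lam) 0 0 j % 2 ^ lam) +
        letN (num y) (packL (2 ^ lam) 0 0 j % 2 ^ lam))) = _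
      rw [(packL_div 0 (show 0 < 2 ^ lam by positivity) hj).2.2, letN_num, letN_num, hini]
    rw [h0]
    constructor
    · intro h
      exact capN_ne h
    · intro hfit hjm
      refine capN_num ?_
      have := hfit.1 0 le_rfl j hjm
      exact_mod_cast this
  | succ r ih =>
    intro j hj
    have hstep : VV eM eU S Λ β B m lam ini B0 (num w) (num y) ((r + 1) * (lam + 2))
        (packL (2 ^ lam) 0 0 j) = capN S (fnN eU S Λ β B (catN (sdN (bitsN j))
          (VV eM eU S Λ β B m lam ini B0 (num w) (num y) (r * (lam + 2) + lam + 1)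
            (packL (2 ^ lam) (lam + 1) 0 j)))) := by
      have e : (r + 1) * (lam + 2) = r * (lam + 2) + lam + 1 + 1 := by ring
      rw [e]
      show FN eM eU S Λ β B m (2 ^ lam) (packL (2 ^ lam) 0 0 j) (tab (2 ^ (S + 1)) 2
        fun i => VV eM eU S Λ β B m lam ini B0 (num w) (num y) (r * (lam + 2) + lam + 1)
          (chM lam (2 ^ lam) (packL (2 ^ lam) 0 0 j) i)) = _
      rw [FN_zero hj, (dig_child _ (fun _ => VV_lt _ _ _ _)).1, chM_zero hj]
    have hch := VV_chunk hmsg hQ ih hj lam le_rfl 0 (by positivity)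
    rw [chunk_top _ _ _ _ hm] at hch
    have hlt := VV_lt (eM := eM) (eU := eU) (Λ := Λ) (β := β) (B := B) (m := m) (lam := lam)
      (ini := ini) (B0 := B0) (S := S) (num w) (num y) (r * (lam + 2) + lam + 1)
      (packL (2 ^ lam) (lam + 1) 0 j)
    rw [hstep]
    set x := VV eM eU S Λ β B m lam ini B0 (num w) (num y) (r * (lam + 2) + lam + 1)
      (packL (2 ^ lam) (lam + 1) 0 j) with hx
    have hlj := length_bits hj
    have hlen : x = num (A.inbox m (A.mem m w y r) j) →
        (sd j.bits ++ A.inbox m (A.mem m w y r) j).length ≤ Q := by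
      intro h
      have := length_of_lt hlt h
      rw [List.length_append, length_sd]
      omega
    have harg : x = num (A.inbox m (A.mem m w y r) j) → catN (sdN (bitsN j)) x =
        num (sd j.bits ++ A.inbox m (A.mem m w y r) j) := by
      intro h
      rw [h, bitsN_eq, sdN_num, catN_num]
    constructor
    · intro h
      have h1 := capN_ne h
      rw [h1] at h ⊢
      have hx0 : x ≠ 0 := by
        intro hx0
        apply h
        rw [hx0]
        have e1 : catN (sdN (bitsN j)) 0 = 0 := by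
          unfold catN
          rcases Nat.eq_zero_or_pos (sdN (bitsN j)) with h | h
          · rw [h]
            rfl
          · rw [ifz_ne h.ne', ifz_zero]
        rw [e1, fnN_zero]
      rw [harg (hch.1 hx0)] at h ⊢
      exact fnN_ne hupd (hlen (hch.1 hx0)) h
    · intro hfit hjm
      have hfit' : A.Fits m w y r S := ⟨fun t ht => hfit.1 t (by omega), fun t ht =>
        hfit.2 t (by omega)⟩
      have hin : (A.inbox m (A.mem m w y r) j).length ≤ S := by
        exact_mod_cast hfit.2 r (by omega) j hjm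
      have hme : (A.upd (sd j.bits ++ A.inbox m (A.mem m w y r) j)).length ≤ S := by
        exact_mod_cast hfit.1 (r + 1) le_rfl j hjm
      have hx1 := hch.2 hfit' hin
      rw [harg hx1, hupd _ (hlen hx1), if_pos hme, capN_num hme]
      rfl

end

end Pool.Agent.Helper78.Mpc
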