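import Pool.Agent.Helper65.LinSpace.Code
import Pool.Agent.Helper65.LinSpace.Bridge

/-!
# A universal simulation of space-bounded Turing machines, as a linear-space function
-/

namespace Pool.Agent.Helper78.Mpc

open Pool.Agent.Helper65.LinSpace Finset

/-! ### The numeric step -/

/-- The code of the letter with index `i` of the word with number `x`. -/
def letN (x i : ℕ) : ℕ := ifz (lt01 i (Nat.log 2 x)) 0 (1 + dig 2 x i)

theorem letN_num (w : List Bool) (i : ℕ) : letN (num w) i = codeO w[i]? := by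
  unfold letN
  rw [log_num]
  by_cases h : i < w.length
  · rw [lt01, if_pos h, ifz_ne one_ne_zero, dig_num w i h, List.getElem?_eq_getElem h]
    rfl
  · rw [lt01, if_neg h, ifz_zero, List.getElem?_eq_none (by omega)]
    rfl

/-- The code of the letter at the position `i` of the input tape. -/
def inN (x i : ℕ) : ℕ := ifz i 0 (letN x (i - 1))

theorem inN_num (w : List Bool) (i : ℕ) : inN (num w) i = codeO (inputSym w i) := by
  unfold inN inputSym
  by_cases h : i = 0
  · rw [h, ifz_zero, if_pos rfl]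
    rfl
  · rw [ifz_ne h, if_neg h, letN_num]

/-- The code of the symbols read by the work heads. -/
def syV (k q o β R : ℕ) : ℕ :=
  ∑ i ∈ range k, dig β R (2 + k + i * (2 * o + 1) + dig β R (2 + i)) * capPow q i β

/-- The index of the transition table. -/
def bsV (k q qk o β x R : ℕ) : ℕ :=
  ((dig β R 0 * 3 + inN x (dig β R 1)) * qk + syV k q o β R) * (2 * k + 2)

/-- The new digits, `bs` being the index of the transition table. -/
def ndV (k B0 T o β x R bs idx : ℕ) : ℕ :=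
  ifz (dig B0 T bs) (dig β R idx)
    (ifz idx (dig B0 T bs - 1)
      (ifz (idx - 1)
        (ifz (dig B0 T (bs + 1)) (dig β R 1 - 1)
          (ifz (dig B0 T (bs + 1) - 1) (dig β R 1) (min (dig β R 1 + 1) (Nat.log 2 x + 1))))
        (ifz (lt01 idx (2 + k))
          (ifz (lt01 idx (2 + k + k * (2 * o + 1))) 0
            (ifz (eq01 ((idx - (2 + k)) % (2 * o + 1))
                (dig β R (2 + (idx - (2 + k)) / (2 * o + 1))))
              (dig β R idx)
              (dig B0 T (bs + 2 + 2 * ((idx - (2 + k)) / (2 * o + 1))))))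
          (dig β R idx + dig B0 T (bs + 3 + 2 * (idx - 2)) - 1))))

/-- One step of the universal simulation. -/
def stepV (k q qk B0 T o Λ β x R : ℕ) : ℕ :=
  tab β Λ (fun idx => ndV k B0 T o β x R (bsV k q qk o β x R) idx % β)

/-- The initial configuration. -/
def initV (k st b0 o Λ β : ℕ) : ℕ :=
  tab β Λ (fun idx => ifz idx st (ifz (idx - 1) 0 (ifz (lt01 idx (2 + k))
    (ifz (lt01 idx (2 + k + k * (2 * o + 1))) 0 b0) o)) % β)

/-- The result of the universal simulation. -/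
def runV (k q qk st b0 B0 T acc o Λ β x : ℕ) : ℕ :=
  dig 2 acc (dig β (nrec (initV k st b0 o Λ β) (fun _ R => stepV k q qk B0 T o Λ β x R) (β ^ Λ)) 0)

variable {α : Type} [Ctx α]

@[fun_prop]
theorem LS.letN {x i : α → ℕ} (hx : LS x) (hi : LS i) : LS (fun a => letN (x a) (i a)) := by
  unfold Mpc.letN
  fun_prop

@[fun_prop]
theorem LS.inN {x i : α → ℕ} (hx : LS x) (hi : LS i) : LS (fun a => inN (x a) (i a)) := by
  unfold Mpc.inN
  fun_prop

@[fun_prop]
theorem LS.syV {k q o β R : α → ℕ} (hk : LS k) (hq : LS q) (ho : LS o) (hβ : LS β) (hR : LS R) :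
    LS (fun a => syV (k a) (q a) (o a) (β a) (R a)) := by
  unfold Mpc.syV
  refine LS.sum_le (N := k) (B := fun a => (R a + 1) * (β a + 1))
    (f := fun a i => dig (β a) (R a) (2 + k a + i * (2 * o a + 1) +
      dig (β a) (R a) (2 + i)) * capPow (q a) i (β a)) (by fun_prop) hk
    (by fun_prop) ?_
  intro a i _
  refine Nat.mul_le_mul ?_ (min_le_right _ _)
  unfold dig
  exact ((Nat.mod_le _ _).trans (Nat.div_le_self _ _)).trans (Nat.le_succ _)

@[fun_prop]
theorem LS.bsV {k q qk o β x R : α → ℕ} (hk : LS k) (hq : LS q) (hqk : LS qk) (ho : LS o)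
    (hβ : LS β) (hx : LS x) (hR : LS R) :
    LS (fun a => bsV (k a) (q a) (qk a) (o a) (β a) (x a) (R a)) := by
  unfold Mpc.bsV
  fun_prop

@[fun_prop]
theorem LS.ndV {k B0 T o β x R bs idx : α → ℕ} (hk : LS k) (hB0 : LS B0) (hT : LS T) (ho : LS o)
    (hβ : LS β) (hx : LS x) (hR : LS R) (hbs : LS bs) (hidx : LS idx) :
    LS (fun a => ndV (k a) (B0 a) (T a) (o a) (β a) (x a) (R a) (bs a) (idx a)) := by
  unfold Mpc.ndV
  fun_prop

theorem LS.stepV {k q qk B0 T o Λ β x R C : α → ℕ} (hk : LS k) (hq : LS q) (hqk : LS qk)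
    (hB0 : LS B0) (hT : LS T) (ho : LS o) (hΛ : LS Λ) (hβ : LS β) (hx : LS x) (hR : LS R)
    (hC : LS C) (hβ0 : ∀ a, 0 < β a) (hb : ∀ a, β a ^ Λ a ≤ C a) :
    LS (fun a => stepV (k a) (q a) (qk a) (B0 a) (T a) (o a) (Λ a) (β a) (x a) (R a)) := by
  unfold Mpc.stepV
  refine LS.tab (q := β) (m := Λ) (C := C)
    (d := fun a idx => Mpc.ndV (k a) (B0 a) (T a) (o a) (β a) (x a) (R a)
      (Mpc.bsV (k a) (q a) (qk a) (o a) (β a) (x a) (R a)) idx % β a) ?_ hβ hΛ hC
    (fun a i _ => Nat.mod_lt _ (hβ0 a)) hb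
  fun_prop

theorem LS.initV {k st b0 o Λ β C : α → ℕ} (hk : LS k) (hst : LS st) (hb0 : LS b0) (ho : LS o)
    (hΛ : LS Λ) (hβ : LS β) (hC : LS C) (hβ0 : ∀ a, 0 < β a) (hb : ∀ a, β a ^ Λ a ≤ C a) :
    LS (fun a => initV (k a) (st a) (b0 a) (o a) (Λ a) (β a)) := by
  unfold Mpc.initV
  refine LS.tab (q := β) (m := Λ) (C := C)
    (d := fun a idx => ifz idx (st a) (ifz (idx - 1) 0
      (ifz (lt01 idx (2 + k a))
        (ifz (lt01 idx (2 + k a + k a * (2 * o a + 1))) 0 (b0 a)) (o a))) % β a)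
    ?_ hβ hΛ hC (fun a i _ => Nat.mod_lt _ (hβ0 a)) hb
  fun_prop

theorem LS.runV {k q qk st b0 B0 T acc o Λ β x C : α → ℕ} (hk : LS k) (hq : LS q) (hqk : LS qk)
    (hst : LS st) (hb0 : LS b0) (hB0 : LS B0) (hT : LS T) (hacc : LS acc) (ho : LS o) (hΛ : LS Λ)
    (hβ : LS β) (hx : LS x) (hC : LS C) (hβ0 : ∀ a, 0 < β a) (hb : ∀ a, β a ^ Λ a ≤ C a) :
    LS (fun a => runV (k a) (q a) (qk a) (st a) (b0 a) (B0 a) (T a) (acc a) (o a) (Λ a) (β a)
      (x a)) := by
  unfold Mpc.runV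
  refine LS.dig (by fun_prop) hacc (LS.dig hβ ?_ (by fun_prop))
  refine LS.nrec (G := fun a => Mpc.initV (k a) (st a) (b0 a) (o a) (Λ a) (β a))
    (N := fun a => β a ^ Λ a) (C := C)
    (K := fun a _ R => Mpc.stepV (k a) (q a) (qk a) (B0 a) (T a) (o a) (Λ a) (β a) (x a) R)
    (LS.initV hk hst hb0 ho hΛ hβ hC hβ0 hb) (LS.pow_of_le hβ hΛ hC hb) hC ?_ ?_
  · exact LS.stepV (α := α × ℕ × ℕ) (k := fun z => k z.1) (q := fun z => q z.1)
      (qk := fun z => qk z.1) (B0 := fun z => B0 z.1) (T := fun z => T z.1) (o := fun z => o z.1)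
      (Λ := fun z => Λ z.1) (β := fun z => β z.1) (x := fun z => x z.1) (R := fun z => z.2.2)
      (C := fun z => C z.1) (by fun_prop) (by fun_prop) (by fun_prop) (by fun_prop) (by fun_prop)
      (by fun_prop) (by fun_prop) (by fun_prop) (by fun_prop) (by fun_prop) (by fun_prop)
      (fun z => hβ0 z.1) (fun z => hb z.1)
  · intro a i _
    rcases i with _ | i
    · exact (tab_lt fun _ _ => Nat.mod_lt _ (hβ0 a)).le.trans (hb a)
    · rw [nrec_succ]
      exact (tab_lt fun _ _ => Nat.mod_lt _ (hβ0 a)).le.trans (hb a)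

end Pool.Agent.Helper78.Mpc
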